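import Pool.Agent.BU.Defs

set_option autoImplicit false

open scoped ENNReal
open Filter Topology Pool.Agent.SawTree Pool.Agent.BB Pool.Agent.BT

namespace Pool.Agent.BU

section Abstract
variable {α : Type} (ht : α → ℕ) (dx : α → ℤ) (w : α → ℝ≥0∞)

open Classical in
/-- the scales -/
noncomputable def Sc (r : ℕ) : ℕ → ℕ
  | 0 => 0
  | s + 1 => Nat.findGreatest (fun m => GG ht w m ≤ 16 * GG ht w (max (Sc r s) 1)) r

lemma Sc_le (r s : ℕ) : Sc ht w r s ≤ r := by
  cases s with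
  | zero => exact Nat.zero_le _
  | succ s => exact Nat.findGreatest_le r

lemma GG_succ_le (hht : ∀ a, 1 ≤ ht a) (hw : ∑' a, w a ≤ 1) (m : ℕ) :
    GG ht w (m + 1) ≤ 16 * GG ht w (max m 1) := by
  rcases Nat.eq_zero_or_pos m with h0 | h0
  · subst h0
    rw [show max 0 1 = 0 + 1 from rfl]
    calc GG ht w (0 + 1) = 1 * GG ht w (0 + 1) := (one_mul _).symm
      _ ≤ 16 * GG ht w (0 + 1) := by gcongr; norm_num
  · rw [max_eq_left h0]
    have h1 : GG ht w (m + 1) = GG ht w m + Bw ht w m := by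
      unfold GG
      rw [Finset.sum_range_succ]
    rw [h1]
    calc GG ht w m + Bw ht w m ≤ GG ht w m + 1 := by gcongr; exact Bw_le_one ht w hht hw m
      _ ≤ GG ht w m + GG ht w m := by gcongr; exact one_le_GG ht w hht m h0
      _ = 2 * GG ht w m := (two_mul _).symm
      _ ≤ 16 * GG ht w m := by gcongr; norm_num

lemma Sc_lt (hht : ∀ a, 1 ≤ ht a) (hw : ∑' a, w a ≤ 1) {r s : ℕ} (h : Sc ht w r s < r) :
    Sc ht w r s < Sc ht w r (s + 1) := by
  classical
  have h1 : Sc ht w r s + 1 ≤ Sc ht w r (s + 1) := by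
    show Sc ht w r s + 1 ≤ Nat.findGreatest _ r
    apply Nat.le_findGreatest h
    exact GG_succ_le ht w hht hw (Sc ht w r s)
  omega

lemma GG_Sc_le (hht : ∀ a, 1 ≤ ht a) (hw : ∑' a, w a ≤ 1) (r s : ℕ) (hr : 1 ≤ r) :
    GG ht w (Sc ht w r (s + 1)) ≤ 16 * GG ht w (max (Sc ht w r s) 1) := by
  classical
  have h1 : (fun m => GG ht w m ≤ 16 * GG ht w (max (Sc ht w r s) 1)) 1 := by
    show GG ht w 1 ≤ 16 * GG ht w (max (Sc ht w r s) 1)
    calc GG ht w 1 ≤ GG ht w (max (Sc ht w r s) 1) := GG_mono ht w (le_max_right _ _)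
      _ = 1 * GG ht w (max (Sc ht w r s) 1) := (one_mul _).symm
      _ ≤ _ := by gcongr; norm_num
  exact Nat.findGreatest_spec (P := fun m => GG ht w m ≤ 16 * GG ht w (max (Sc ht w r s) 1)) hr h1

lemma le_GG_Sc (hht : ∀ a, 1 ≤ ht a) (hw : ∑' a, w a ≤ 1) (r s : ℕ)
    (h : Sc ht w r (s + 1) < r) :
    16 * GG ht w (max (Sc ht w r s) 1) ≤ GG ht w (Sc ht w r (s + 2)) := by
  classical
  have h1 : ¬ (fun m => GG ht w m ≤ 16 * GG ht w (max (Sc ht w r s) 1)) (Sc ht w r (s + 1) + 1) :=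
    Nat.findGreatest_is_greatest (P := fun m => GG ht w m ≤ 16 * GG ht w (max (Sc ht w r s) 1))
      (Nat.lt_succ_self _) h
  have h2 : 16 * GG ht w (max (Sc ht w r s) 1) < GG ht w (Sc ht w r (s + 1) + 1) :=
    not_le.mp h1
  refine le_trans h2.le (GG_mono ht w ?_)
  exact Sc_lt ht w hht hw h

theorem exists_scale (hht : ∀ a, 1 ≤ ht a) (hw : ∑' a, w a ≤ 1) (r : ℕ) (hr : 1 ≤ r) :
    ∃ (S : ℕ → ℕ) (K : ℕ), IsScale ht w S K r := by
  classical
  have hex : ∃ K, Sc ht w r K = r := by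
    by_contra hcon
    push Not at hcon
    have h1 : ∀ s, s ≤ Sc ht w r s := by
      intro s
      induction s with
      | zero => exact Nat.zero_le _
      | succ s ih =>
        have h2 : Sc ht w r s < r := lt_of_le_of_ne (Sc_le ht w r s) (hcon s)
        have := Sc_lt ht w hht hw h2
        omega
    have h2 := h1 (r + 1)
    have h3 := Sc_le ht w r (r + 1)
    omega
  have hmin : ∀ s < Nat.find hex, Sc ht w r s < r := fun s hs =>
    lt_of_le_of_ne (Sc_le ht w r s) (Nat.find_min hex hs)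
  have hK : Sc ht w r (Nat.find hex) = r := Nat.find_spec hex
  refine ⟨Sc ht w r, Nat.find hex, ?_⟩
  refine { zero := rfl, top := hK, one_le_r := hr, one_le_K := ?_, le := ?_, lt := ?_, up := ?_,
           down := ?_ }
  · by_contra hcon
    have h0 : Nat.find hex = 0 := by omega
    rw [h0] at hK
    have : Sc ht w r 0 = 0 := rfl
    omega
  · intro s _
    exact Sc_le ht w r s
  · intro s hs
    exact Sc_lt ht w hht hw (hmin s hs)
  · intro s _
    exact GG_Sc_le ht w hht hw r s hr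
  · intro s hs
    exact le_GG_Sc ht w hht hw r s (hmin (s + 1) (by omega))

theorem ee_ne_zero (hht : ∀ a, 1 ≤ ht a) (hw : ∑' a, w a ≤ 1) (S : ℕ → ℕ) (r s : ℕ)
    (hr : 1 ≤ r) : ee ht w S r s ≠ 0 := by
  unfold ee
  have h1 : GG ht w (zz S s) ≠ 0 := GG_ne_zero ht w hht _ (le_max_right _ _)
  have h2 : GG ht w r ≠ ⊤ := GG_ne_top ht w hht hw r
  intro h
  rw [ENNReal.rpow_eq_zero_iff] at h
  rcases h with ⟨h, _⟩ | ⟨_, h⟩
  · rw [ENNReal.div_eq_zero_iff] at h
    rcases h with h | h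
    · exact h1 h
    · exact h2 h
  · norm_num at h

lemma zz_le {S : ℕ → ℕ} {K r s : ℕ} (h : IsScale ht w S K r) (hs : s ≤ K) : zz S s ≤ r :=
  max_le (h.le s hs) h.one_le_r

theorem ee_le_one (S : ℕ → ℕ) (K r s : ℕ) (h : IsScale ht w S K r) (hs : s ≤ K) :
    ee ht w S r s ≤ 1 := by
  unfold ee
  apply ENNReal.rpow_le_one
  · exact ENNReal.div_le_of_le_mul (by
      rw [one_mul]
      exact GG_mono ht w (zz_le ht w h hs))
  · norm_num

theorem ee_top (hht : ∀ a, 1 ≤ ht a) (hw : ∑' a, w a ≤ 1) (S : ℕ → ℕ) (K r : ℕ)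
    (h : IsScale ht w S K r) : ee ht w S r K = 1 := by
  unfold ee
  have h1 : zz S K = r := by
    unfold zz
    rw [h.top]
    exact max_eq_left h.one_le_r
  rw [h1, ENNReal.div_self (GG_ne_zero ht w hht r h.one_le_r) (GG_ne_top ht w hht hw r)]
  simp

theorem inv_ee_zero_le (hht : ∀ a, 1 ≤ ht a) (hw : ∑' a, w a ≤ 1) (S : ℕ → ℕ) (K r : ℕ)
    (h : IsScale ht w S K r) : (ee ht w S r 0)⁻¹ ≤ r := by
  have h1 : zz S 0 = 1 := by
    unfold zz
    rw [h.zero]
    rfl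
  have h2 : GG ht w 1 = 1 := by
    unfold GG
    rw [Finset.sum_range_one, Bw_zero ht w hht]
  unfold ee
  rw [h1, h2, ← ENNReal.inv_rpow, one_div, inv_inv]
  have h3 := one_le_GG ht w hht r h.one_le_r
  calc GG ht w r ^ (1 / 4 : ℝ) ≤ GG ht w r ^ (1 : ℝ) :=
        ENNReal.rpow_le_rpow_of_exponent_le h3 (by norm_num)
    _ = GG ht w r := ENNReal.rpow_one _
    _ ≤ r := GG_le ht w hht hw r

lemma ee_half (hht : ∀ a, 1 ≤ ht a) (hw : ∑' a, w a ≤ 1) (S : ℕ → ℕ) (K r s : ℕ)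
    (h : IsScale ht w S K r) (hs : s + 2 ≤ K) : 2 * ee ht w S r s ≤ ee ht w S r (s + 2) := by
  unfold ee
  have h1 : (2 : ℝ≥0∞) = (16 : ℝ≥0∞) ^ (1 / 4 : ℝ) := by
    rw [show (16 : ℝ≥0∞) = 2 ^ (4 : ℝ) by
      rw [show (4 : ℝ) = ((4 : ℕ) : ℝ) by norm_num, ENNReal.rpow_natCast]; norm_num]
    rw [← ENNReal.rpow_mul]
    norm_num
  conv_lhs => rw [h1]
  rw [← ENNReal.mul_rpow_of_nonneg _ _ (by norm_num : (0 : ℝ) ≤ 1 / 4)]
  apply ENNReal.rpow_le_rpow _ (by norm_num)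
  rw [← mul_div_assoc]
  apply ENNReal.div_le_div_right
  refine le_trans (h.down s hs) (GG_mono ht w (le_max_left _ _))

theorem sum_ee_le (hht : ∀ a, 1 ≤ ht a) (hw : ∑' a, w a ≤ 1) (S : ℕ → ℕ) (K r : ℕ)
    (h : IsScale ht w S K r) : ∑ s ∈ Finset.range (K + 1), ee ht w S r s ≤ 4 := by
  have key : ∀ k, k + 1 ≤ K → ∑ s ∈ Finset.range (k + 2), ee ht w S r s ≤
      2 * ee ht w S r (k + 1) + 2 * ee ht w S r k := by
    intro k
    induction k with
    | zero =>
      intro _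
      rw [Finset.sum_range_succ, Finset.sum_range_one, add_comm]
      refine add_le_add ?_ ?_
      · calc ee ht w S r 1 = 1 * ee ht w S r 1 := (one_mul _).symm
          _ ≤ 2 * ee ht w S r 1 := by gcongr; norm_num
      · calc ee ht w S r 0 = 1 * ee ht w S r 0 := (one_mul _).symm
          _ ≤ 2 * ee ht w S r 0 := by gcongr; norm_num
    | succ k ih =>
      intro hk
      rw [Finset.sum_range_succ]
      have h1 := ih (by omega)
      have h2 := ee_half ht w hht hw S K r k h (by omega)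
      calc ∑ s ∈ Finset.range (k + 2), ee ht w S r s + ee ht w S r (k + 2)
          ≤ (2 * ee ht w S r (k + 1) + 2 * ee ht w S r k) + ee ht w S r (k + 2) := by gcongr
        _ ≤ (2 * ee ht w S r (k + 1) + ee ht w S r (k + 2)) + ee ht w S r (k + 2) := by gcongr
        _ = 2 * ee ht w S r (k + 1 + 1) + 2 * ee ht w S r (k + 1) := by
            rw [show k + 1 + 1 = k + 2 from rfl]
            ring
  obtain ⟨k, hk⟩ : ∃ k, K = k + 1 := ⟨K - 1, by have := h.one_le_K; omega⟩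
  have h1 := key k (by omega)
  rw [hk, show k + 1 + 1 = k + 2 from rfl]
  refine le_trans h1 ?_
  have h2 := ee_le_one ht w S K r (k + 1) h (by omega)
  have h3 := ee_le_one ht w S K r k h (by omega)
  calc 2 * ee ht w S r (k + 1) + 2 * ee ht w S r k ≤ 2 * 1 + 2 * 1 := by gcongr
    _ = 4 := by norm_num

end Abstract

end Pool.Agent.BU
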