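import Pool.Agent.BU.Cluster1
import Pool.Agent.BU.Scale
import Pool.Agent.BT.MidBound

set_option autoImplicit false

open scoped ENNReal
open Filter Topology Pool.Agent.SawTree Pool.Agent.BB Pool.Agent.BT

namespace Pool.Agent.BU

section Abstract
variable {α : Type} (ht : α → ℕ) (dx : α → ℤ) (w : α → ℝ≥0∞)

theorem mb_one_le_zz (S : ℕ → ℕ) (s : ℕ) : 1 ≤ zz S s := le_max_right _ _

theorem mb_S_mono {S : ℕ → ℕ} {K r : ℕ} (h : IsScale ht w S K r) {s t : ℕ} (hst : s ≤ t)
    (htK : t ≤ K) : S s ≤ S t := by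
  induction t, hst using Nat.le_induction with
  | base => exact le_rfl
  | succ n hn ih => exact (ih (by omega)).trans (h.lt n (by omega)).le

theorem mb_zz_mono {S : ℕ → ℕ} {K r : ℕ} (h : IsScale ht w S K r) {s t : ℕ} (hst : s ≤ t)
    (htK : t ≤ K) : zz S s ≤ zz S t :=
  max_le_max (mb_S_mono ht w h hst htK) le_rfl

theorem mb_zz_top {S : ℕ → ℕ} {K r : ℕ} (h : IsScale ht w S K r) : zz S K = r := by
  unfold zz
  rw [h.top]
  exact max_eq_left h.one_le_r

theorem mb_zz_le {S : ℕ → ℕ} {K r : ℕ} (h : IsScale ht w S K r) {s : ℕ} (hs : s ≤ K) :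
    zz S s ≤ r := max_le (h.le s hs) h.one_le_r

theorem mb_ee_mono {S : ℕ → ℕ} {K r : ℕ} (h : IsScale ht w S K r) {s t : ℕ} (hst : s ≤ t)
    (htK : t ≤ K) : ee ht w S r s ≤ ee ht w S r t := by
  unfold ee
  refine ENNReal.rpow_le_rpow ?_ (by norm_num)
  exact ENNReal.div_le_div_right (GG_mono ht w (mb_zz_mono ht w h hst htK)) _

theorem mb_ee_pow (S : ℕ → ℕ) (r s : ℕ) :
    ee ht w S r s ^ 4 = GG ht w (zz S s) / GG ht w r := by
  unfold ee
  rw [← ENNReal.rpow_natCast, ← ENNReal.rpow_mul]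
  norm_num

/-- the square sum over a free piece -/
theorem mb_V_fs (hht : ∀ a, 1 ≤ ht a) (hw : ∑' a, w a ≤ 1) {S : ℕ → ℕ} {K r : ℕ}
    (h : IsScale ht w S K r) {s : ℕ} (hs : s ≤ K) :
    VV ht w (fs S K r s) ≤ 1024 * VV ht w (zz S s) := by
  unfold fs
  by_cases hsK : s = K
  · rw [if_pos hsK, hsK, mb_zz_top ht w h]
    refine (mb_VV_mul ht w hht hw 8 r h.one_le_r).trans ?_
    refine mul_le_mul' ?_ le_rfl
    norm_num
  · rw [if_neg hsK]
    have hlt : s < K := lt_of_le_of_ne hs hsK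
    have hZ1 := mb_one_le_zz S s
    have hZ : zz S s ≤ S (s + 1) := by
      have h1 := h.lt s hlt
      unfold zz
      exact max_le h1.le (by omega)
    have h2 : GG ht w (S (s + 1) + zz S s) ≤ 32 * GG ht w (zz S s) := by
      have h3 := GG_mul_le ht w hht hw 2 (S (s + 1))
      calc GG ht w (S (s + 1) + zz S s) ≤ GG ht w (2 * S (s + 1)) :=
            GG_mono ht w (by omega)
        _ ≤ ((2 : ℕ) : ℝ≥0∞) * GG ht w (S (s + 1)) := h3
        _ ≤ ((2 : ℕ) : ℝ≥0∞) * (16 * GG ht w (zz S s)) := mul_le_mul' le_rfl (h.up s hlt)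
        _ = 32 * GG ht w (zz S s) := by
            rw [← mul_assoc]
            norm_num
    have h4 := cluster1 ht w hht hw (S (s + 1)) (zz S s) hZ1
    have hG0 := GG_ne_zero ht w hht (zz S s) hZ1
    have hGt := GG_ne_top ht w hht hw (zz S s)
    refine (ENNReal.mul_le_mul_iff_left hG0 hGt).1 ?_
    calc VV ht w (S (s + 1)) * GG ht w (zz S s)
        ≤ GG ht w (S (s + 1) + zz S s) * VV ht w (zz S s) := h4
      _ ≤ (32 * GG ht w (zz S s)) * VV ht w (zz S s) := mul_le_mul' h2 le_rfl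
      _ ≤ (1024 * GG ht w (zz S s)) * VV ht w (zz S s) :=
          mul_le_mul' (mul_le_mul' (by norm_num) le_rfl) le_rfl
      _ = 1024 * VV ht w (zz S s) * GG ht w (zz S s) := by ring

/-- the bound for a pair with a short piece of scale `s` and the other one of scale `t` -/
theorem mb_pair (hht : ∀ a, 1 ≤ ht a) (hw : ∑' a, w a ≤ 1) {S : ℕ → ℕ} {K r : ℕ}
    (h : IsScale ht w S K r) {s t : ℕ} (hs : s < K) (hst : s ≤ t) (ht' : t ≤ K) (T : ℝ≥0∞)
    (hT : T ≤ (wsum {a : α | r ≤ ht a} w * GG ht w (fs S K r s)) ^ 2 * VV ht w (fs S K r t)) :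
    T * VV ht w r ≤ 2 ^ 19 * (VV ht w (zz S t) * VV ht w (zz S s)) *
      (ee ht w S r t * ee ht w S r s) ^ 2 := by
  have hZ1 := mb_one_le_zz S s
  have hfs : GG ht w (fs S K r s) ≤ 16 * GG ht w (zz S s) := by
    unfold fs
    rw [if_neg hs.ne]
    exact h.up s hs
  have hV := mb_V_fs ht w hht hw h ht'
  have hcl : GG ht w (zz S s) * VV ht w r ≤ (2 * GG ht w r) * VV ht w (zz S s) := by
    have h3 := cluster1 ht w hht hw r (zz S s) hZ1
    have h4 : GG ht w (r + zz S s) ≤ 2 * GG ht w r := by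
      have h5 := GG_mul_le ht w hht hw 2 r
      have h6 := mb_zz_le ht w h hs.le
      refine (GG_mono ht w (show r + zz S s ≤ 2 * r by omega)).trans ?_
      simpa using h5
    calc GG ht w (zz S s) * VV ht w r = VV ht w r * GG ht w (zz S s) := mul_comm _ _
      _ ≤ GG ht w (r + zz S s) * VV ht w (zz S s) := h3
      _ ≤ _ := mul_le_mul' h4 le_rfl
  have h6 : GG ht w r * wsum {a : α | r ≤ ht a} w ≤ 1 := tail_le ht w hht hw r
  have hGr0 := GG_ne_zero ht w hht r h.one_le_r
  have hGrt := GG_ne_top ht w hht hw r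
  have hG : GG ht w (zz S s) = GG ht w r * ee ht w S r s ^ 4 := by
    rw [mb_ee_pow]
    rw [ENNReal.mul_div_cancel hGr0 hGrt]
  have hee : ee ht w S r s ^ 4 ≤ (ee ht w S r t * ee ht w S r s) ^ 2 := by
    have h7 := mb_ee_mono ht w h hst ht'
    calc ee ht w S r s ^ 4 = (ee ht w S r s * ee ht w S r s) ^ 2 := by ring
      _ ≤ _ := pow_le_pow_left' (mul_le_mul' h7 le_rfl) 2
  set F := wsum {a : α | r ≤ ht a} w with hF
  calc T * VV ht w r
      ≤ ((F * (16 * GG ht w (zz S s))) ^ 2 * (1024 * VV ht w (zz S t))) * VV ht w r :=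
        mul_le_mul' (hT.trans (mul_le_mul' (pow_le_pow_left' (mul_le_mul' le_rfl hfs) 2) hV))
          le_rfl
    _ = 2 ^ 18 * (F ^ 2 * GG ht w (zz S s) * VV ht w (zz S t)) *
        (GG ht w (zz S s) * VV ht w r) := by ring
    _ ≤ 2 ^ 18 * (F ^ 2 * GG ht w (zz S s) * VV ht w (zz S t)) *
        ((2 * GG ht w r) * VV ht w (zz S s)) := mul_le_mul' le_rfl hcl
    _ = 2 ^ 19 * (VV ht w (zz S t) * VV ht w (zz S s)) *
        (F ^ 2 * GG ht w r * GG ht w (zz S s)) := by ring
    _ = 2 ^ 19 * (VV ht w (zz S t) * VV ht w (zz S s)) *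
        ((GG ht w r * F) ^ 2 * ee ht w S r s ^ 4) := by
          rw [hG]
          ring
    _ ≤ 2 ^ 19 * (VV ht w (zz S t) * VV ht w (zz S s)) *
        (1 ^ 2 * (ee ht w S r t * ee ht w S r s) ^ 2) :=
          mul_le_mul' le_rfl (mul_le_mul' (pow_le_pow_left' h6 2) hee)
    _ = _ := by ring

theorem Rw_bound (hht : ∀ a, 1 ≤ ht a) (hw : ∑' a, w a ≤ 1) {S : ℕ → ℕ} {K r : ℕ}
    (h : IsScale ht w S K r) (s' s : ℕ) (hs' : s' ≤ K) (hs : s ≤ K) :
    (∑' n, Rw ht w S K r s' s n ^ 2) * VV ht w r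
      ≤ 2 ^ 19 * (VV ht w (zz S s') * VV ht w (zz S s)) * (ee ht w S r s' * ee ht w S r s) ^ 2 := by
  have hwLc : ∀ (y : List α) a (x : List α), wL w (y ++ a :: x) = w a * (wL w x * wL w y) := by
    intro y a x
    simp only [wL, List.map_append, List.map_cons, List.prod_append, List.prod_cons]
    ring
  have hhLc : ∀ (y : List α) a (x : List α), hL ht (y ++ a :: x) = hL ht y + ht a + hL ht x := by
    intro y a x
    simp only [hL, List.map_append, List.map_cons, List.sum_append, List.sum_cons]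
    omega
  by_cases htop : s' = K ∧ s = K
  · obtain ⟨h1, h2⟩ := htop
    have h3 : ∀ n, Rw ht w S K r s' s n ≤ mbB ht w (16 * r) n := by
      intro n
      unfold Rw mbB
      split_ifs with hn
      · exact wsum_mono (fun m hm => hm.2) fun x _ => le_rfl
      · have : {m : List α | m ∈ Mid ht S K r s' s ∧ hL ht m = n} = ∅ := by
          ext m
          simp only [Set.mem_ofPred_eq, Set.mem_empty_iff_false, iff_false, not_and]
          intro hm hmn
          rcases hm with hm | hm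
          · omega
          · exact hm.1 ⟨h1, h2⟩
        rw [this]
        simp [wsum]
    have h4 : ∑' n, Rw ht w S K r s' s n ^ 2 ≤ VV ht w (16 * r) := by
      rw [← mbB_sum]
      exact ENNReal.tsum_le_tsum fun n => pow_le_pow_left' (h3 n) 2
    have h5 := mb_VV_mul ht w hht hw 16 r h.one_le_r
    have h6 : ee ht w S r K = 1 := ee_top ht w hht hw S K r h
    rw [h1, h2, mb_zz_top ht w h, h6] at *
    calc (∑' n, Rw ht w S K r K K n ^ 2) * VV ht w r
        ≤ (((16 : ℕ) : ℝ≥0∞) + 1) ^ 2 * VV ht w r * VV ht w r :=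
          mul_le_mul' (h4.trans h5) le_rfl
      _ = 289 * (VV ht w r * VV ht w r) := by
          push_cast
          rw [mul_assoc]
          congr 1
          norm_num
      _ ≤ 2 ^ 19 * (VV ht w r * VV ht w r) := mul_le_mul' (by norm_num) le_rfl
      _ = _ := by ring
  · have hmid : ∀ m, m ∈ Mid ht S K r s' s → ∃ y a x, m = y ++ a :: x ∧ hL ht y < fs S K r s' ∧
        hL ht x < fs S K r s ∧ r ≤ ht a := by
      intro m hm
      rcases hm with hm | hm
      · exact absurd ⟨hm.1, hm.2.1⟩ htop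
      · exact hm.2
    rcases le_total s s' with hle | hle
    · have hsK : s < K := by
        rcases lt_or_eq_of_le hs with h1 | h1
        · exact h1
        · exact absurd ⟨by omega, h1⟩ htop
      have h1 := mb_young ht w r (fs S K r s) (fs S K r s') (fun a u v => v ++ a :: u)
        (fun n => {m | m ∈ Mid ht S K r s' s ∧ hL ht m = n}) (by
          intro n m hm
          obtain ⟨y, a, x, e, hy, hx, ha⟩ := hmid m hm.1
          refine ⟨a, x, y, e, ha, hx, hy, ?_, ?_⟩
          · rw [← hm.2, e, hhLc]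
            omega
          · rw [e, hwLc]
            ring)
      exact mb_pair ht w hht hw h hsK hle hs' (∑' n, Rw ht w S K r s' s n ^ 2) h1
    · have hsK : s' < K := by
        rcases lt_or_eq_of_le hs' with h1 | h1
        · exact h1
        · exact absurd ⟨h1, by omega⟩ htop
      have h1 := mb_young ht w r (fs S K r s') (fs S K r s) (fun a u v => u ++ a :: v)
        (fun n => {m | m ∈ Mid ht S K r s' s ∧ hL ht m = n}) (by
          intro n m hm
          obtain ⟨y, a, x, e, hy, hx, ha⟩ := hmid m hm.1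
          refine ⟨a, y, x, e, ha, hy, hx, ?_, ?_⟩
          · rw [← hm.2, e, hhLc]
            omega
          · rw [e, hwLc]
            ring)
      have h2 := mb_pair ht w hht hw h hsK hle hs (∑' n, Rw ht w S K r s' s n ^ 2) h1
      refine h2.trans (le_of_eq ?_)
      ring

end Abstract

end Pool.Agent.BU
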