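import Pool.Agent.BT.Num

set_option autoImplicit false

open scoped ENNReal

namespace Pool.Agent.BU.Num

open Pool.Agent.BT.Num

section Main

variable (N L M : ℕ) (V ε : ℕ → ℝ≥0∞) (κ : ℕ → ℕ → ℕ → ℕ → ℝ≥0∞) (R : ℕ → ℕ → ℕ → ℝ≥0∞)
  (E : ℕ → ℕ → ℕ → ℝ≥0∞)

/-- second weight -/
noncomputable def r2 (i : ℕ × ℕ × ℕ × ℕ) : ℝ≥0∞ :=
  qq M κ i.1 i.2.1 * V i.2.1 * (ε i.2.1 * (ε i.1)⁻¹)

/-- first weight -/
noncomputable def r1 (i : ℕ × ℕ × ℕ × ℕ) : ℝ≥0∞ :=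
  (qq M κ i.1 i.2.1 * V i.2.1)⁻¹ * (ε i.1 * (ε i.2.1)⁻¹)

/-- norm of the unknowns -/
noncomputable def nn (A : ℕ) : ℝ≥0∞ :=
  rt (∑ i ∈ II N M, kk κ i * r1 M V ε κ i * E A i.2.1 i.2.2.2 ^ 2)

/-- norm of the kernel -/
noncomputable def KN (A s x : ℕ) : ℝ≥0∞ :=
  rt (∑ i ∈ II N M, kk κ i * r2 M V ε κ i * RR R A s x i.1 i.2.2.1 ^ 2)

/-- the Hilbert-Schmidt factors -/
noncomputable def aa (A : ℕ) : ℝ≥0∞ :=
  rt (∑ i ∈ II N M, kk κ i * r1 M V ε κ i * KN N M V ε κ R A i.2.1 i.2.2.2 ^ 2)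

variable {N L M V ε κ R E}

theorem ε_ne_top (hε1 : ∀ s < N, ε s ≤ 1) {s : ℕ} (hs : s < N) : ε s ≠ ⊤ :=
  ne_top_of_le_ne_top ENNReal.one_ne_top (hε1 s hs)

/-- (F1) -/
theorem mass1 (hN : 1 ≤ N) (hV1 : ∀ s, 1 ≤ V s) (hVm : ∀ s < N, V s ≤ V (N - 1))
    (hVt : V (N - 1) ≤ L)
    (hκ : ∀ s' < N, ∀ s < N, (∑ y ∈ Finset.range M, ∑ x ∈ Finset.range M, κ s' s y x) ^ 2 *
      (V s' * V s) ≤ 4 * V (N - 1)) {s' s : ℕ} (hs' : s' < N) (hs : s < N) :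
    qq M κ s' s * ((qq M κ s' s * V s)⁻¹ * (ε s' * (ε s)⁻¹)) ≤ (V s)⁻¹ * (ε s' * (ε s)⁻¹) := by
  rw [← mul_assoc]
  exact mul_le_mul' (BT.Num.mass1 hN hV1 hVm hVt hκ hs' hs) le_rfl

/-- (F2) -/
theorem mass2 (hV1 : ∀ s, 1 ≤ V s) (hN : 1 ≤ N) (hVm : ∀ s < N, V s ≤ V (N - 1))
    (hVt : V (N - 1) ≤ L)
    (hκ : ∀ s' < N, ∀ s < N, (∑ y ∈ Finset.range M, ∑ x ∈ Finset.range M, κ s' s y x) ^ 2 *
      (V s' * V s) ≤ 4 * V (N - 1)) {s' s : ℕ} (hs' : s' < N) (hs : s < N) :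
    qq M κ s' s * (qq M κ s' s * V s * (ε s * (ε s')⁻¹)) ≤
      4 * V (N - 1) * (V s')⁻¹ * (ε s * (ε s')⁻¹) := by
  rw [← mul_assoc]
  exact mul_le_mul' (BT.Num.mass2 hV1 hN hVm hVt hκ hs' hs) le_rfl

theorem r12 (hN : 1 ≤ N) (hV1 : ∀ s, 1 ≤ V s) (hVm : ∀ s < N, V s ≤ V (N - 1))
    (hVt : V (N - 1) ≤ L) (hε0 : ∀ s < N, ε s ≠ 0) (hε1 : ∀ s < N, ε s ≤ 1)
    (hκ : ∀ s' < N, ∀ s < N, (∑ y ∈ Finset.range M, ∑ x ∈ Finset.range M, κ s' s y x) ^ 2 *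
      (V s' * V s) ≤ 4 * V (N - 1)) (i : ℕ × ℕ × ℕ × ℕ) (hi : i ∈ II N M) (h : kk κ i ≠ 0) :
    r1 M V ε κ i * r2 M V ε κ i = 1 := by
  have h0 := BT.Num.r12 hN hV1 hVm hVt hκ i hi h
  unfold BT.Num.r1 BT.Num.r2 at h0
  unfold II at hi
  simp only [Finset.mem_product, Finset.mem_range] at hi
  obtain ⟨h1, h2, h3, h4⟩ := hi
  unfold r1 r2
  calc (qq M κ i.1 i.2.1 * V i.2.1)⁻¹ * (ε i.1 * (ε i.2.1)⁻¹) *
        (qq M κ i.1 i.2.1 * V i.2.1 * (ε i.2.1 * (ε i.1)⁻¹))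
      = ((qq M κ i.1 i.2.1 * V i.2.1)⁻¹ * (qq M κ i.1 i.2.1 * V i.2.1)) *
        (ε i.1 * (ε i.1)⁻¹) * (ε i.2.1 * (ε i.2.1)⁻¹) := by ring
    _ = 1 := by
        rw [h0, ENNReal.mul_inv_cancel (hε0 _ h1) (ε_ne_top hε1 h1),
          ENNReal.mul_inv_cancel (hε0 _ h2) (ε_ne_top hε1 h2)]
        simp

/-- (F1) summed: the constraint on the second scale -/
theorem base_le (hN : 1 ≤ N) (hV1 : ∀ s, 1 ≤ V s) (hVm : ∀ s < N, V s ≤ V (N - 1))
    (hVt : V (N - 1) ≤ L) (hεs : ∑ s ∈ Finset.range N, ε s ≤ 4) (hεL : (ε 0)⁻¹ ≤ L)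
    (hκ : ∀ s' < N, ∀ s < N, (∑ y ∈ Finset.range M, ∑ x ∈ Finset.range M, κ s' s y x) ^ 2 *
      (V s' * V s) ≤ 4 * V (N - 1)) :
    ∑ i ∈ II N M, kk κ i * r1 M V ε κ i *
      (if i.2.1 = 0 ∧ i.2.2.2 = 0 then (1 : ℝ≥0∞) else 0) ^ 2 ≤ 4 * L := by
  rw [sum_II]
  have key : ∀ s' ∈ Finset.range N, (∑ s ∈ Finset.range N, ∑ y ∈ Finset.range M,
      ∑ x ∈ Finset.range M, kk κ (s', s, y, x) * r1 M V ε κ (s', s, y, x) *
        (if s = 0 ∧ x = 0 then (1 : ℝ≥0∞) else 0) ^ 2) ≤ ε s' * L := by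
    intro s' hs'
    rw [Finset.mem_range] at hs'
    have h1 : ∀ s ∈ Finset.range N, (∑ y ∈ Finset.range M,
      ∑ x ∈ Finset.range M, kk κ (s', s, y, x) * r1 M V ε κ (s', s, y, x) *
        (if s = 0 ∧ x = 0 then (1 : ℝ≥0∞) else 0) ^ 2) ≤
        if s = 0 then qq M κ s' 0 * ((qq M κ s' 0 * V 0)⁻¹ * (ε s' * (ε 0)⁻¹)) else 0 := by
      intro s hs
      by_cases h0 : s = 0
      · subst h0
        rw [if_pos rfl]
        unfold qq
        rw [Finset.sum_mul]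
        refine Finset.sum_le_sum fun y _ => ?_
        rw [Finset.sum_mul]
        refine Finset.sum_le_sum fun x _ => ?_
        have : (if (0 : ℕ) = 0 ∧ x = 0 then (1 : ℝ≥0∞) else 0) ^ 2 ≤ 1 := by
          split_ifs <;> simp
        calc kk κ (s', 0, y, x) * r1 M V ε κ (s', 0, y, x) *
              (if (0 : ℕ) = 0 ∧ x = 0 then (1 : ℝ≥0∞) else 0) ^ 2
            ≤ kk κ (s', 0, y, x) * r1 M V ε κ (s', 0, y, x) * 1 := by gcongr
          _ = _ := by rw [mul_one]; rfl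
      · rw [if_neg h0]
        refine le_of_eq ?_
        refine Finset.sum_eq_zero fun y _ => Finset.sum_eq_zero fun x _ => ?_
        rw [if_neg (by tauto)]
        simp
    refine (Finset.sum_le_sum h1).trans ?_
    rw [Finset.sum_ite_eq' (Finset.range N) 0]
    split_ifs
    · refine (mass1 hN hV1 hVm hVt hκ hs' (by omega)).trans ?_
      have : (V 0)⁻¹ ≤ 1 := by
        rw [ENNReal.inv_le_one]
        exact hV1 0
      calc (V 0)⁻¹ * (ε s' * (ε 0)⁻¹) ≤ 1 * (ε s' * L) := by gcongr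
        _ = _ := by rw [one_mul]
    · exact zero_le
  refine (Finset.sum_le_sum key).trans ?_
  rw [← Finset.sum_mul]
  gcongr

/-- (F2) summed -/
theorem top_le (hN : 1 ≤ N) (hV1 : ∀ s, 1 ≤ V s) (hVm : ∀ s < N, V s ≤ V (N - 1))
    (hVt : V (N - 1) ≤ L) (hεs : ∑ s ∈ Finset.range N, ε s ≤ 4) (hεL : (ε 0)⁻¹ ≤ L)
    (hκ : ∀ s' < N, ∀ s < N, (∑ y ∈ Finset.range M, ∑ x ∈ Finset.range M, κ s' s y x) ^ 2 *
      (V s' * V s) ≤ 4 * V (N - 1)) :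
    ∑ i ∈ II N M, kk κ i * r2 M V ε κ i *
      (if i.1 = 0 ∧ i.2.2.1 = 0 then (1 : ℝ≥0∞) else 0) ^ 2 ≤ (4 * L) ^ 2 := by
  rw [sum_II]
  have h1 : ∀ s' ∈ Finset.range N, (∑ s ∈ Finset.range N, ∑ y ∈ Finset.range M,
      ∑ x ∈ Finset.range M, kk κ (s', s, y, x) * r2 M V ε κ (s', s, y, x) *
        (if s' = 0 ∧ y = 0 then (1 : ℝ≥0∞) else 0) ^ 2) ≤
      if s' = 0 then ∑ s ∈ Finset.range N,
        qq M κ 0 s * (qq M κ 0 s * V s * (ε s * (ε 0)⁻¹)) else 0 := by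
    intro s' hs'
    by_cases h0 : s' = 0
    · subst h0
      rw [if_pos rfl]
      refine Finset.sum_le_sum fun s _ => ?_
      unfold qq
      rw [Finset.sum_mul]
      refine Finset.sum_le_sum fun y _ => ?_
      rw [Finset.sum_mul]
      refine Finset.sum_le_sum fun x _ => ?_
      have : (if (0 : ℕ) = 0 ∧ y = 0 then (1 : ℝ≥0∞) else 0) ^ 2 ≤ 1 := by
        split_ifs <;> simp
      calc kk κ (0, s, y, x) * r2 M V ε κ (0, s, y, x) *
            (if (0 : ℕ) = 0 ∧ y = 0 then (1 : ℝ≥0∞) else 0) ^ 2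
          ≤ kk κ (0, s, y, x) * r2 M V ε κ (0, s, y, x) * 1 := by gcongr
        _ = _ := by rw [mul_one]; rfl
    · rw [if_neg h0]
      refine le_of_eq ?_
      refine Finset.sum_eq_zero fun s _ => Finset.sum_eq_zero fun y _ =>
        Finset.sum_eq_zero fun x _ => ?_
      rw [if_neg (by tauto)]
      simp
  refine (Finset.sum_le_sum h1).trans ?_
  rw [Finset.sum_ite_eq' (Finset.range N) 0]
  split_ifs
  · calc ∑ s ∈ Finset.range N, qq M κ 0 s * (qq M κ 0 s * V s * (ε s * (ε 0)⁻¹))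
        ≤ ∑ s ∈ Finset.range N, (4 * L * L : ℝ≥0∞) * ε s := by
          refine Finset.sum_le_sum fun s hs => ?_
          rw [Finset.mem_range] at hs
          refine (mass2 hV1 hN hVm hVt hκ (by omega) hs).trans ?_
          have : (V 0)⁻¹ ≤ 1 := by
            rw [ENNReal.inv_le_one]
            exact hV1 0
          calc 4 * V (N - 1) * (V 0)⁻¹ * (ε s * (ε 0)⁻¹) ≤ 4 * L * 1 * (ε s * L) := by gcongr
            _ = _ := by ring
      _ ≤ (4 * L * L : ℝ≥0∞) * 4 := by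
          rw [← Finset.mul_sum]
          gcongr
      _ = (4 * L) ^ 2 := by ring
  · exact zero_le

theorem step1 (hN : 1 ≤ N) (hV1 : ∀ s, 1 ≤ V s) (hVm : ∀ s < N, V s ≤ V (N - 1))
    (hVt : V (N - 1) ≤ L) (hε0 : ∀ s < N, ε s ≠ 0) (hε1 : ∀ s < N, ε s ≤ 1)
    (hεs : ∑ s ∈ Finset.range N, ε s ≤ 4) (hεL : (ε 0)⁻¹ ≤ L)
    (hκ : ∀ s' < N, ∀ s < N, (∑ y ∈ Finset.range M, ∑ x ∈ Finset.range M, κ s' s y x) ^ 2 *
      (V s' * V s) ≤ 4 * V (N - 1)) (c θ : ℝ≥0∞)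
    {A : ℕ} {s x : ℕ} (hx : x < M)
    (hE : E A s x ≤
      ∑ s' ∈ Finset.range N, ∑ y ∈ Finset.range M,
        (if x + y ≤ A then R s' s (A - x - y) else 0) *
          (c * κ s' 0 y 0 + θ * ∑ A' ∈ Finset.Ico L A, ∑ s'' ∈ Finset.range N,
            ∑ x'' ∈ Finset.range M, κ s' s'' y x'' * E A' s'' x'')) :
    E A s x ≤ KN N M V ε κ R A s x *
      (c * rt (4 * L) + ∑ A' ∈ Finset.Ico L A, θ * nn N M V ε κ E A') := by
  refine hE.trans ?_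
  have e1 : ∀ s' ∈ Finset.range N, ∀ y ∈ Finset.range M,
      (if x + y ≤ A then R s' s (A - x - y) else 0) *
          (c * κ s' 0 y 0 + θ * ∑ A' ∈ Finset.Ico L A, ∑ s'' ∈ Finset.range N,
            ∑ x'' ∈ Finset.range M, κ s' s'' y x'' * E A' s'' x'') =
      c * (κ s' 0 y 0 * RR R A s x s' y) + ∑ A' ∈ Finset.Ico L A, ∑ s'' ∈ Finset.range N,
            ∑ x'' ∈ Finset.range M, θ * (κ s' s'' y x'' * RR R A s x s' y * E A' s'' x'') := by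
    intro s' _ y _
    have : (if x + y ≤ A then R s' s (A - x - y) else 0) = RR R A s x s' y := rfl
    rw [this, mul_add]
    congr 1
    · ring
    · rw [Finset.mul_sum, Finset.mul_sum]
      refine Finset.sum_congr rfl fun A' _ => ?_
      rw [Finset.mul_sum, Finset.mul_sum]
      refine Finset.sum_congr rfl fun s'' _ => ?_
      rw [Finset.mul_sum, Finset.mul_sum]
      refine Finset.sum_congr rfl fun x'' _ => ?_
      ring
  rw [Finset.sum_congr rfl fun s' hs' => Finset.sum_congr rfl fun y hy => e1 s' hs' y hy]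
  simp only [Finset.sum_add_distrib]
  rw [mul_add]
  refine add_le_add ?_ ?_
  · have f1 : ∑ s' ∈ Finset.range N, ∑ y ∈ Finset.range M, c * (κ s' 0 y 0 * RR R A s x s' y) =
        c * ∑ i ∈ II N M, kk κ i * RR R A s x i.1 i.2.2.1 *
          (if i.2.1 = 0 ∧ i.2.2.2 = 0 then (1 : ℝ≥0∞) else 0) := by
      rw [sum_II]
      simp only [← Finset.mul_sum]
      congr 1
      refine Finset.sum_congr rfl fun s' _ => ?_
      rw [Finset.sum_comm (s := Finset.range N)]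
      refine Finset.sum_congr rfl fun y _ => ?_
      symm
      rw [Finset.sum_eq_single 0]
      · rw [Finset.sum_eq_single 0]
        · simp [kk]
        · intro b _ hb
          rw [if_neg (by tauto), mul_zero]
        · intro h
          exact absurd (Finset.mem_range.mpr (by omega)) h
      · intro b _ hb
        refine Finset.sum_eq_zero fun z _ => ?_
        rw [if_neg (by tauto), mul_zero]
      · intro h
        exact absurd (Finset.mem_range.mpr (by omega)) h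
    rw [f1]
    have f2 := wcs (II N M) (kk κ) (r1 M V ε κ) (r2 M V ε κ)
      (fun i => RR R A s x i.1 i.2.2.1)
      (fun i => if i.2.1 = 0 ∧ i.2.2.2 = 0 then (1 : ℝ≥0∞) else 0)
      (r12 hN hV1 hVm hVt hε0 hε1 hκ)
    have f3 := rt_mono (base_le hN hV1 hVm hVt hεs hεL hκ)
    calc _ ≤ c * (KN N M V ε κ R A s x * rt (∑ i ∈ II N M, kk κ i * r1 M V ε κ i *
      (if i.2.1 = 0 ∧ i.2.2.2 = 0 then (1 : ℝ≥0∞) else 0) ^ 2)) := by
          gcongr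
          exact f2
      _ ≤ c * (KN N M V ε κ R A s x * rt (4 * L)) := by gcongr
      _ = _ := by ring
  · have f1 : ∑ s' ∈ Finset.range N, ∑ y ∈ Finset.range M, ∑ A' ∈ Finset.Ico L A,
        ∑ s'' ∈ Finset.range N, ∑ x'' ∈ Finset.range M,
          θ * (κ s' s'' y x'' * RR R A s x s' y * E A' s'' x'') =
        ∑ A' ∈ Finset.Ico L A, θ * ∑ i ∈ II N M, kk κ i * RR R A s x i.1 i.2.2.1 *
          E A' i.2.1 i.2.2.2 := by
      calc _ = ∑ s' ∈ Finset.range N, ∑ A' ∈ Finset.Ico L A, ∑ y ∈ Finset.range M,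
        ∑ s'' ∈ Finset.range N, ∑ x'' ∈ Finset.range M,
          θ * (κ s' s'' y x'' * RR R A s x s' y * E A' s'' x'') :=
            Finset.sum_congr rfl fun s' _ => Finset.sum_comm
        _ = ∑ A' ∈ Finset.Ico L A, ∑ s' ∈ Finset.range N, ∑ y ∈ Finset.range M,
        ∑ s'' ∈ Finset.range N, ∑ x'' ∈ Finset.range M,
          θ * (κ s' s'' y x'' * RR R A s x s' y * E A' s'' x'') := Finset.sum_comm
        _ = _ := by
          refine Finset.sum_congr rfl fun A' _ => ?_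
          rw [sum_II, Finset.mul_sum]
          refine Finset.sum_congr rfl fun s' _ => ?_
          rw [Finset.sum_comm, Finset.mul_sum]
          refine Finset.sum_congr rfl fun s'' _ => ?_
          rw [Finset.mul_sum]
          refine Finset.sum_congr rfl fun y _ => ?_
          rw [Finset.mul_sum]
          rfl
    rw [f1, Finset.mul_sum]
    refine Finset.sum_le_sum fun A' _ => ?_
    calc _ ≤ θ * (KN N M V ε κ R A s x * nn N M V ε κ E A') :=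
          mul_le_mul' le_rfl (wcs (II N M) (kk κ) (r1 M V ε κ) (r2 M V ε κ)
            (fun i => RR R A s x i.1 i.2.2.1) (fun i => E A' i.2.1 i.2.2.2)
            (r12 hN hV1 hVm hVt hε0 hε1 hκ))
      _ = _ := by ring

theorem step2 (B : ℝ≥0∞) {A : ℕ}
    (h : ∀ s < N, ∀ x < M, E A s x ≤ KN N M V ε κ R A s x * B) :
    nn N M V ε κ E A ≤ aa N M V ε κ R A * B := by
  unfold nn aa
  have e1 : rt (∑ i ∈ II N M, kk κ i * r1 M V ε κ i * KN N M V ε κ R A i.2.1 i.2.2.2 ^ 2) * B =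
      rt (∑ i ∈ II N M, kk κ i * r1 M V ε κ i * (KN N M V ε κ R A i.2.1 i.2.2.2 * B) ^ 2) := by
    rw [← rt_of_sq B, ← rt_mul, Finset.sum_mul]
    congr 1
    refine Finset.sum_congr rfl fun i _ => ?_
    rw [rt_of_sq]
    ring
  rw [e1]
  refine rt_mono (Finset.sum_le_sum fun i hi => ?_)
  unfold II at hi
  simp only [Finset.mem_product, Finset.mem_range] at hi
  obtain ⟨h1, h2, h3, h4⟩ := hi
  gcongr
  exact h _ h2 _ h4

/-- the Hilbert-Schmidt sum -/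
theorem step3 (hN : 1 ≤ N) (hV1 : ∀ s, 1 ≤ V s) (hVm : ∀ s < N, V s ≤ V (N - 1))
    (hVt : V (N - 1) ≤ L) (hε0 : ∀ s < N, ε s ≠ 0) (hε1 : ∀ s < N, ε s ≤ 1)
    (hεs : ∑ s ∈ Finset.range N, ε s ≤ 4)
    (hκ : ∀ s' < N, ∀ s < N, (∑ y ∈ Finset.range M, ∑ x ∈ Finset.range M, κ s' s y x) ^ 2 *
      (V s' * V s) ≤ 4 * V (N - 1))
    (hR : ∀ s' < N, ∀ s < N, (∑' n, R s' s n ^ 2) * V (N - 1) ≤
      2 ^ 19 * (V s' * V s) * (ε s' * ε s) ^ 2)
    (A0 A1 : ℕ) :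
    ∑ A ∈ Finset.Ico A0 A1, aa N M V ε κ R A ^ 2 ≤ 2 ^ 29 := by
  unfold aa KN
  simp only [rt_sq]
  have e1 : ∑ A ∈ Finset.Ico A0 A1, ∑ i ∈ II N M, kk κ i * r1 M V ε κ i *
      ∑ j ∈ II N M, kk κ j * r2 M V ε κ j * RR R A i.2.1 i.2.2.2 j.1 j.2.2.1 ^ 2 =
      ∑ i ∈ II N M, kk κ i * r1 M V ε κ i * ∑ j ∈ II N M, kk κ j * r2 M V ε κ j *
        ∑ A ∈ Finset.Ico A0 A1, RR R A i.2.1 i.2.2.2 j.1 j.2.2.1 ^ 2 := by
    rw [Finset.sum_comm]
    refine Finset.sum_congr rfl fun i _ => ?_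
    rw [← Finset.mul_sum, Finset.sum_comm]
    congr 1
    refine Finset.sum_congr rfl fun j _ => ?_
    rw [← Finset.mul_sum]
  rw [e1]
  have e2 : ∑ i ∈ II N M, kk κ i * r1 M V ε κ i * ∑ j ∈ II N M, kk κ j * r2 M V ε κ j *
        ∑ A ∈ Finset.Ico A0 A1, RR R A i.2.1 i.2.2.2 j.1 j.2.2.1 ^ 2 ≤
      ∑ i ∈ II N M, kk κ i * r1 M V ε κ i * ∑ j ∈ II N M, kk κ j * r2 M V ε κ j *
        ∑' n, R j.1 i.2.1 n ^ 2 := by
    gcongr with i _ j _
    exact sum_RR_le A0 A1 _ _ _ _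
  refine e2.trans ?_
  have e3 : ∀ s, ∑ j ∈ II N M, kk κ j * r2 M V ε κ j * ∑' n, R j.1 s n ^ 2 =
      ∑ t' ∈ Finset.range N, ∑ t ∈ Finset.range N,
        (qq M κ t' t * (qq M κ t' t * V t * (ε t * (ε t')⁻¹))) * ∑' n, R t' s n ^ 2 := by
    intro s
    rw [sum4_eq (kk κ) (r2 M V ε κ) (fun t' _ => ∑' n, R t' s n ^ 2)]
    refine Finset.sum_congr rfl fun t' _ => Finset.sum_congr rfl fun t _ => ?_
    congr 1
    unfold qq
    rw [Finset.sum_mul]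
    refine Finset.sum_congr rfl fun y _ => ?_
    rw [Finset.sum_mul]
    rfl
  have e4 : ∑ i ∈ II N M, kk κ i * r1 M V ε κ i * ∑ j ∈ II N M, kk κ j * r2 M V ε κ j *
        ∑' n, R j.1 i.2.1 n ^ 2 =
      ∑ s' ∈ Finset.range N, ∑ s ∈ Finset.range N,
        (qq M κ s' s * ((qq M κ s' s * V s)⁻¹ * (ε s' * (ε s)⁻¹))) *
        ∑ t' ∈ Finset.range N, ∑ t ∈ Finset.range N,
          (qq M κ t' t * (qq M κ t' t * V t * (ε t * (ε t')⁻¹))) * ∑' n, R t' s n ^ 2 := by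
    rw [sum4_eq (kk κ) (r1 M V ε κ) (fun _ s => ∑ j ∈ II N M, kk κ j * r2 M V ε κ j *
        ∑' n, R j.1 s n ^ 2)]
    refine Finset.sum_congr rfl fun s' _ => Finset.sum_congr rfl fun s _ => ?_
    rw [e3]
    congr 1
    unfold qq
    rw [Finset.sum_mul]
    refine Finset.sum_congr rfl fun y _ => ?_
    rw [Finset.sum_mul]
    rfl
  rw [e4]
  have e5 : ∀ s' ∈ Finset.range N, ∀ s ∈ Finset.range N,
      (qq M κ s' s * ((qq M κ s' s * V s)⁻¹ * (ε s' * (ε s)⁻¹))) *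
        ∑ t' ∈ Finset.range N, ∑ t ∈ Finset.range N,
          (qq M κ t' t * (qq M κ t' t * V t * (ε t * (ε t')⁻¹))) * ∑' n, R t' s n ^ 2 ≤
      2 ^ 21 * (ε s' * ε s) *
        ∑ t' ∈ Finset.range N, ∑ t ∈ Finset.range N, ε t' * ε t := by
    intro s' hs' s hs
    rw [Finset.mem_range] at hs' hs
    have g1 : ∀ t' ∈ Finset.range N, ∀ t ∈ Finset.range N,
        (V s)⁻¹ * (ε s' * (ε s)⁻¹) *
          ((qq M κ t' t * (qq M κ t' t * V t * (ε t * (ε t')⁻¹))) * ∑' n, R t' s n ^ 2) ≤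
        2 ^ 21 * (ε s' * ε s) * (ε t' * ε t) := by
      intro t' ht' t ht
      rw [Finset.mem_range] at ht' ht
      have hvs := V_ne_top hVm hVt hs
      have hvs0 := V_ne_zero hV1 s
      have hvt := V_ne_top hVm hVt ht'
      have hvt0 := V_ne_zero hV1 t'
      have hes := ε_ne_top hε1 hs
      have hes0 := hε0 s hs
      have het := ε_ne_top hε1 ht'
      have het0 := hε0 t' ht'
      calc (V s)⁻¹ * (ε s' * (ε s)⁻¹) *
          ((qq M κ t' t * (qq M κ t' t * V t * (ε t * (ε t')⁻¹))) * ∑' n, R t' s n ^ 2)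
          ≤ (V s)⁻¹ * (ε s' * (ε s)⁻¹) *
          ((4 * V (N - 1) * (V t')⁻¹ * (ε t * (ε t')⁻¹)) * ∑' n, R t' s n ^ 2) :=
            mul_le_mul' le_rfl (mul_le_mul' (mass2 hV1 hN hVm hVt hκ ht' ht) le_rfl)
        _ = 4 * (V s)⁻¹ * (V t')⁻¹ * (ε s' * (ε s)⁻¹) * (ε t * (ε t')⁻¹) *
            ((∑' n, R t' s n ^ 2) * V (N - 1)) := by ring
        _ ≤ 4 * (V s)⁻¹ * (V t')⁻¹ * (ε s' * (ε s)⁻¹) * (ε t * (ε t')⁻¹) *
            (2 ^ 19 * (V t' * V s) * (ε t' * ε s) ^ 2) :=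
            mul_le_mul' le_rfl (hR t' ht' s hs)
        _ = 2 ^ 21 * ((V s)⁻¹ * V s) * ((V t')⁻¹ * V t') * ((ε s)⁻¹ * ε s) *
            ((ε t')⁻¹ * ε t') * (ε s' * ε s) * (ε t' * ε t) := by ring
        _ = 2 ^ 21 * (ε s' * ε s) * (ε t' * ε t) := by
            rw [ENNReal.inv_mul_cancel hvs0 hvs, ENNReal.inv_mul_cancel hvt0 hvt,
              ENNReal.inv_mul_cancel hes0 hes, ENNReal.inv_mul_cancel het0 het]
            ring
    calc (qq M κ s' s * ((qq M κ s' s * V s)⁻¹ * (ε s' * (ε s)⁻¹))) *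
        ∑ t' ∈ Finset.range N, ∑ t ∈ Finset.range N,
          (qq M κ t' t * (qq M κ t' t * V t * (ε t * (ε t')⁻¹))) * ∑' n, R t' s n ^ 2
        ≤ (V s)⁻¹ * (ε s' * (ε s)⁻¹) * ∑ t' ∈ Finset.range N, ∑ t ∈ Finset.range N,
          (qq M κ t' t * (qq M κ t' t * V t * (ε t * (ε t')⁻¹))) * ∑' n, R t' s n ^ 2 :=
          mul_le_mul' (mass1 hN hV1 hVm hVt hκ hs' hs) le_rfl
      _ = ∑ t' ∈ Finset.range N, ∑ t ∈ Finset.range N, (V s)⁻¹ * (ε s' * (ε s)⁻¹) *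
          ((qq M κ t' t * (qq M κ t' t * V t * (ε t * (ε t')⁻¹))) * ∑' n, R t' s n ^ 2) := by
          rw [Finset.mul_sum]
          refine Finset.sum_congr rfl fun t' _ => ?_
          rw [Finset.mul_sum]
      _ ≤ ∑ t' ∈ Finset.range N, ∑ t ∈ Finset.range N,
          2 ^ 21 * (ε s' * ε s) * (ε t' * ε t) :=
          Finset.sum_le_sum fun t' ht' => Finset.sum_le_sum fun t ht => g1 t' ht' t ht
      _ = _ := by
          rw [Finset.mul_sum]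
          refine Finset.sum_congr rfl fun t' _ => ?_
          rw [Finset.mul_sum]
  refine (Finset.sum_le_sum fun s' hs' => Finset.sum_le_sum fun s hs => e5 s' hs' s hs).trans ?_
  have e6 : ∑ t' ∈ Finset.range N, ∑ t ∈ Finset.range N, ε t' * ε t =
      (∑ s ∈ Finset.range N, ε s) * (∑ s ∈ Finset.range N, ε s) := by
    rw [Finset.sum_mul_sum]
  rw [e6]
  have e7 : ∑ s' ∈ Finset.range N, ∑ s ∈ Finset.range N, 2 ^ 21 * (ε s' * ε s) *
      ((∑ s ∈ Finset.range N, ε s) * (∑ s ∈ Finset.range N, ε s)) =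
      2 ^ 21 * ((∑ s ∈ Finset.range N, ε s) * (∑ s ∈ Finset.range N, ε s)) *
      ((∑ s ∈ Finset.range N, ε s) * (∑ s ∈ Finset.range N, ε s)) := by
    simp only [← Finset.sum_mul]
    congr 1
    rw [← e6, Finset.mul_sum]
    refine Finset.sum_congr rfl fun s' _ => ?_
    rw [Finset.mul_sum]
  rw [e7]
  calc _ ≤ (2 : ℝ≥0∞) ^ 21 * (4 * 4) * (4 * 4) := by gcongr
    _ = 2 ^ 29 := by norm_num

theorem step4 (hN : 1 ≤ N) (hV1 : ∀ s, 1 ≤ V s) (hVm : ∀ s < N, V s ≤ V (N - 1))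
    (hVt : V (N - 1) ≤ L) (hε0 : ∀ s < N, ε s ≠ 0) (hε1 : ∀ s < N, ε s ≤ 1)
    (hεs : ∑ s ∈ Finset.range N, ε s ≤ 4)
    (hκ : ∀ s' < N, ∀ s < N, (∑ y ∈ Finset.range M, ∑ x ∈ Finset.range M, κ s' s y x) ^ 2 *
      (V s' * V s) ≤ 4 * V (N - 1))
    (hR : ∀ s' < N, ∀ s < N, (∑' n, R s' s n ^ 2) * V (N - 1) ≤
      2 ^ 19 * (V s' * V s) * (ε s' * ε s) ^ 2) :
    ∑ A ∈ Finset.Ico L (2 * L), aa N M V ε κ R A ≤ 2 ^ 15 * rt L := by
  have h1 := cs (Finset.Ico L (2 * L)) (fun A => aa N M V ε κ R A) (fun _ => 1)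
  simp only [mul_one, one_pow, Finset.sum_const, Nat.card_Ico, nsmul_eq_mul] at h1
  have e : 2 * L - L = L := by omega
  rw [e] at h1
  refine h1.trans ?_
  gcongr
  refine rt_le ((step3 hN hV1 hVm hVt hε0 hε1 hεs hκ hR L (2 * L)).trans ?_)
  norm_num

end Main

theorem one_add_le (u : ℝ) (hu : 0 ≤ u) : 1 + u ^ 8 ≤ Real.exp (8 * u) := by
  have h1 : 1 + u ≤ Real.exp u := by linarith [Real.add_one_le_exp u]
  have h2 : Real.exp (8 * u) = Real.exp u ^ 8 := by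
    rw [← Real.exp_nat_mul]; norm_num
  rw [h2]
  calc 1 + u ^ 8 ≤ (1 + u) ^ 8 := by
        have : (1 + u) ^ 8 = 1 + u ^ 8 + (8 * u + 28 * u ^ 2 + 56 * u ^ 3 + 70 * u ^ 4 +
          56 * u ^ 5 + 28 * u ^ 6 + 8 * u ^ 7) := by ring
        rw [this]
        have : 0 ≤ 8 * u + 28 * u ^ 2 + 56 * u ^ 3 + 70 * u ^ 4 +
          56 * u ^ 5 + 28 * u ^ 6 + 8 * u ^ 7 := by positivity
        linarith
    _ ≤ _ := pow_le_pow_left₀ (by positivity) h1 8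

/-- the numerical end -/
theorem real_end (L θ x : ℝ) (hL : 1 ≤ L) (hθ0 : 0 ≤ θ) (hθ1 : θ ≤ 1) (hx0 : 0 ≤ x)
    (hx : x ≤ θ * (2 ^ 15 * √L)) :
    1 + 8 * (L * √L) * x * Real.exp x ≤ Real.exp (33000 * √L * θ ^ (1 / 8 : ℝ)) := by
  have hs1 : 1 ≤ √L := by rw [Real.one_le_sqrt]; exact hL
  have hs0 : 0 ≤ √L := by linarith
  have hsq : √L * √L = L := Real.mul_self_sqrt (by linarith)
  set φ := θ ^ (1 / 8 : ℝ) with hφ
  have hφ0 : 0 ≤ φ := Real.rpow_nonneg hθ0 _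
  have hφ8 : φ ^ 8 = θ := by
    rw [hφ, ← Real.rpow_natCast, ← Real.rpow_mul hθ0]
    norm_num
  have hφ1 : φ ≤ 1 := Real.rpow_le_one hθ0 hθ1 (by norm_num)
  have hθφ : θ ≤ φ := by
    calc θ = φ ^ 8 := hφ8.symm
      _ ≤ φ ^ 1 := pow_le_pow_of_le_one hφ0 hφ1 (by norm_num)
      _ = φ := pow_one φ
  -- `y ≤ u ^ 8`, `u = (39 / 8) √L φ`
  have hy : 8 * (L * √L) * x ≤ (39 / 8 * √L * φ) ^ 8 := by
    have h1 : 8 * (L * √L) * x ≤ 8 * (L * √L) * (θ * (2 ^ 15 * √L)) := by gcongr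
    have h2 : 8 * (L * √L) * (θ * (2 ^ 15 * √L)) = 2 ^ 18 * (L ^ 2 * θ) := by
      calc 8 * (L * √L) * (θ * (2 ^ 15 * √L)) = 2 ^ 18 * (L * (√L * √L)) * θ := by ring
        _ = _ := by rw [hsq]; ring
    have h3 : (39 / 8 * √L * φ) ^ 8 = (39 / 8) ^ 8 * (L ^ 4 * θ) := by
      calc (39 / 8 * √L * φ) ^ 8 = (39 / 8) ^ 8 * ((√L * √L) ^ 4 * φ ^ 8) := by ring
        _ = _ := by rw [hsq, hφ8]
    rw [h3]
    refine h1.trans (h2.le.trans ?_)
    have h4 : L ^ 2 ≤ L ^ 4 := pow_le_pow_right₀ hL (by norm_num)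
    have h5 : L ^ 2 * θ ≤ L ^ 4 * θ := mul_le_mul_of_nonneg_right h4 hθ0
    have h6 : 0 ≤ L ^ 4 * θ := by positivity
    nlinarith
  have hy0 : 0 ≤ 8 * (L * √L) * x := by positivity
  have he : 1 ≤ Real.exp x := Real.one_le_exp hx0
  have hu0 : 0 ≤ 39 / 8 * √L * φ := by positivity
  calc 1 + 8 * (L * √L) * x * Real.exp x
      ≤ Real.exp x + 8 * (L * √L) * x * Real.exp x := by linarith
    _ = (1 + 8 * (L * √L) * x) * Real.exp x := by ring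
    _ ≤ (1 + (39 / 8 * √L * φ) ^ 8) * Real.exp x := by gcongr
    _ ≤ Real.exp (8 * (39 / 8 * √L * φ)) * Real.exp x := by
        gcongr
        exact one_add_le _ hu0
    _ = Real.exp (8 * (39 / 8 * √L * φ) + x) := by rw [Real.exp_add]
    _ ≤ _ := by
        apply Real.exp_le_exp.mpr
        have h7 : x ≤ 32768 * √L * φ := by
          refine hx.trans ?_
          have : θ * (2 ^ 15 * √L) ≤ φ * (2 ^ 15 * √L) := by gcongr
          refine this.trans (le_of_eq ?_)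
          norm_num
          ring
        have h8 : 0 ≤ √L * φ := by positivity
        nlinarith

end Pool.Agent.BU.Num

namespace Pool.Agent.BU

open Pool.Agent.BT.Num Pool.Agent.BU.Num in
theorem num_main (N L M : ℕ) (hN : 1 ≤ N) (hL : 1 ≤ L) (V ε : ℕ → ℝ≥0∞) (hV1 : ∀ s, 1 ≤ V s)
    (hVm : ∀ s < N, V s ≤ V (N - 1)) (hVt : V (N - 1) ≤ L)
    (hε0 : ∀ s < N, ε s ≠ 0) (hε1 : ∀ s < N, ε s ≤ 1) (hεs : ∑ s ∈ Finset.range N, ε s ≤ 4)
    (hεL : (ε 0)⁻¹ ≤ L)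
    (κ : ℕ → ℕ → ℕ → ℕ → ℝ≥0∞)
    (hκ : ∀ s' < N, ∀ s < N, (∑ y ∈ Finset.range M, ∑ x ∈ Finset.range M, κ s' s y x) ^ 2 *
      (V s' * V s) ≤ 4 * V (N - 1))
    (R : ℕ → ℕ → ℕ → ℝ≥0∞)
    (hR : ∀ s' < N, ∀ s < N, (∑' n, R s' s n ^ 2) * V (N - 1) ≤
      2 ^ 19 * (V s' * V s) * (ε s' * ε s) ^ 2)
    (E : ℕ → ℕ → ℕ → ℝ≥0∞) (c : ℝ≥0∞) (θ : ℝ) (hθ0 : 0 ≤ θ) (hθ1 : θ ≤ 1)
    (hE : ∀ A, L ≤ A → A < 2 * L → ∀ s < N, ∀ x < M, E A s x ≤
      ∑ s' ∈ Finset.range N, ∑ y ∈ Finset.range M,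
        (if x + y ≤ A then R s' s (A - x - y) else 0) *
          (c * κ s' 0 y 0 + ENNReal.ofReal θ * ∑ A' ∈ Finset.Ico L A, ∑ s'' ∈ Finset.range N,
            ∑ x'' ∈ Finset.range M, κ s' s'' y x'' * E A' s'' x'')) :
    c + ENNReal.ofReal θ * ∑ A ∈ Finset.Ico L (2 * L), ∑ s ∈ Finset.range N,
        ∑ x ∈ Finset.range M, κ 0 s 0 x * E A s x
      ≤ c * ENNReal.ofReal (Real.exp (33000 * √(L : ℝ) * θ ^ (1 / 8 : ℝ))) := by
  set τ : ℝ≥0∞ := ENNReal.ofReal θ with hτ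
  have hτt : τ ≠ ⊤ := ENNReal.ofReal_ne_top
  -- the sum of the factors
  have hs4 := step4 hN hV1 hVm hVt hε0 hε1 hεs hκ hR
  have hfin : ∑ A ∈ Finset.Ico L (2 * L), BU.Num.aa N M V ε κ R A ≠ ⊤ := by
    refine ne_top_of_le_ne_top ?_ hs4
    rw [rt_natCast]
    exact ENNReal.mul_ne_top (ENNReal.pow_ne_top (by norm_num)) ENNReal.ofReal_ne_top
  have hfin' : ∀ A, L ≤ A → A < 2 * L → τ * BU.Num.aa N M V ε κ R A ≠ ⊤ := by
    intro A h1 h2
    exact ENNReal.mul_ne_top hτt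
      ((ENNReal.sum_ne_top.mp hfin) A (Finset.mem_Ico.mpr ⟨h1, h2⟩))
  set x : ℝ := ∑ A ∈ Finset.Ico L (2 * L), (τ * BU.Num.aa N M V ε κ R A).toReal with hx
  have hx0 : 0 ≤ x := Finset.sum_nonneg fun _ _ => ENNReal.toReal_nonneg
  have hsumE : ∑ A ∈ Finset.Ico L (2 * L), τ * BU.Num.aa N M V ε κ R A = ENNReal.ofReal x := by
    rw [hx, ← ENNReal.toReal_sum (fun A hA => by
      rw [Finset.mem_Ico] at hA; exact hfin' A hA.1 hA.2), ENNReal.ofReal_toReal]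
    rw [← Finset.mul_sum]
    exact ENNReal.mul_ne_top hτt hfin
  have hsum : x ≤ θ * (2 ^ 15 * √(L : ℝ)) := by
    have h1 : ENNReal.ofReal x ≤ ENNReal.ofReal (θ * (2 ^ 15 * √(L : ℝ))) := by
      rw [← hsumE, ← Finset.mul_sum, ENNReal.ofReal_mul hθ0, ENNReal.ofReal_mul (by norm_num),
        ← rt_natCast]
      refine mul_le_mul' le_rfl (hs4.trans (le_of_eq ?_))
      congr 1
      norm_num
    exact (ENNReal.ofReal_le_ofReal_iff (by positivity)).mp h1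
  have hrec : ∀ A, L ≤ A → A < 2 * L → τ * BU.Num.nn N M V ε κ E A ≤
      τ * BU.Num.aa N M V ε κ R A * (c * rt (4 * L) +
        ∑ A' ∈ Finset.Ico L A, τ * BU.Num.nn N M V ε κ E A') := by
    intro A h1 h2
    rw [mul_assoc]
    exact mul_le_mul' le_rfl (BU.Num.step2 _ fun s hs x hx =>
      BU.Num.step1 hN hV1 hVm hVt hε0 hε1 hεs hεL hκ c τ hx (hE A h1 h2 s hs x hx))
  have hg := fun A1 (h1 : L ≤ A1) (h2 : A1 ≤ 2 * L) =>
    gronwall (fun A => τ * BU.Num.aa N M V ε κ R A) (fun A => τ * BU.Num.nn N M V ε κ E A)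
    (c * rt (4 * L)) L A1 h1 (fun A hA hA' => hfin' A hA (by omega))
    (fun A hA hA' => hrec A hA (by omega))
  have hg1 : ∀ A, L ≤ A → A < 2 * L → c * rt (4 * L) +
      ∑ A' ∈ Finset.Ico L A, τ * BU.Num.nn N M V ε κ E A' ≤
      c * rt (4 * L) * ENNReal.ofReal (Real.exp x) := by
    intro A h1 h2
    refine (hg A h1 h2.le).trans ?_
    refine mul_le_mul' le_rfl (ENNReal.ofReal_le_ofReal (Real.exp_le_exp.mpr ?_))
    rw [hx]
    exact Finset.sum_le_sum_of_subset_of_nonneg (Finset.Ico_subset_Ico_right h2.le)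
      fun _ _ _ => ENNReal.toReal_nonneg
  have hg2 : ∑ A ∈ Finset.Ico L (2 * L), τ * BU.Num.nn N M V ε κ E A ≤
      ENNReal.ofReal x * (c * rt (4 * L) * ENNReal.ofReal (Real.exp x)) := by
    rw [← hsumE, Finset.sum_mul]
    refine Finset.sum_le_sum fun A hA => ?_
    rw [Finset.mem_Ico] at hA
    exact (hrec A hA.1 hA.2).trans (mul_le_mul' le_rfl (hg1 A hA.1 hA.2))
  -- the last sum
  have hlast : ∀ A, ∑ s ∈ Finset.range N, ∑ x ∈ Finset.range M, κ 0 s 0 x * E A s x ≤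
      4 * L * BU.Num.nn N M V ε κ E A := by
    intro A
    have h1 : ∑ s ∈ Finset.range N, ∑ x ∈ Finset.range M, κ 0 s 0 x * E A s x ≤
        ∑ i ∈ II N M, kk κ i * (if i.1 = 0 ∧ i.2.2.1 = 0 then (1 : ℝ≥0∞) else 0) *
          E A i.2.1 i.2.2.2 := by
      rw [sum_II]
      have h0 : (0 : ℕ) ∈ Finset.range N := Finset.mem_range.mpr (by omega)
      refine le_trans ?_ (Finset.single_le_sum (fun _ _ => zero_le) h0)
      refine Finset.sum_le_sum fun s _ => ?_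
      rcases Nat.eq_zero_or_pos M with hM | hM
      · subst hM; simp
      · have h0 : (0 : ℕ) ∈ Finset.range M := Finset.mem_range.mpr hM
        refine le_trans ?_ (Finset.single_le_sum (fun _ _ => zero_le) h0)
        refine le_of_eq (Finset.sum_congr rfl fun x _ => ?_)
        simp [kk]
    refine h1.trans ((wcs (II N M) (kk κ) (BU.Num.r1 M V ε κ) (BU.Num.r2 M V ε κ)
      (fun i => if i.1 = 0 ∧ i.2.2.1 = 0 then (1 : ℝ≥0∞) else 0) (fun i => E A i.2.1 i.2.2.2)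
      (BU.Num.r12 hN hV1 hVm hVt hε0 hε1 hκ)).trans ?_)
    exact mul_le_mul' (rt_le (BU.Num.top_le hN hV1 hVm hVt hεs hεL hκ)) le_rfl
  have hfinal : τ * ∑ A ∈ Finset.Ico L (2 * L), ∑ s ∈ Finset.range N, ∑ x ∈ Finset.range M,
      κ 0 s 0 x * E A s x ≤ 4 * L *
        (ENNReal.ofReal x * (c * rt (4 * L) * ENNReal.ofReal (Real.exp x))) := by
    calc _ ≤ τ * ∑ A ∈ Finset.Ico L (2 * L), 4 * L * BU.Num.nn N M V ε κ E A :=
          mul_le_mul' le_rfl (Finset.sum_le_sum fun A _ => hlast A)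
      _ = 4 * L * ∑ A ∈ Finset.Ico L (2 * L), τ * BU.Num.nn N M V ε κ E A := by
          rw [Finset.mul_sum, Finset.mul_sum]
          refine Finset.sum_congr rfl fun A _ => ?_
          ring
      _ ≤ _ := mul_le_mul' le_rfl hg2
  refine (add_le_add_right hfinal c).trans ?_
  have hrt : rt (4 * L) = 2 * rt L := by
    rw [← rt_of_sq 2, ← rt_mul]
    congr 1
    norm_num
  rw [hrt]
  have e1 : c + 4 * L * (ENNReal.ofReal x * (c * (2 * rt L) * ENNReal.ofReal (Real.exp x))) =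
      c * (1 + 8 * (L * rt L) * ENNReal.ofReal x * ENNReal.ofReal (Real.exp x)) := by ring
  rw [e1]
  refine mul_le_mul' le_rfl ?_
  have hL' : (1 : ℝ) ≤ L := by exact_mod_cast hL
  have e2 : (1 : ℝ≥0∞) + 8 * (L * rt L) * ENNReal.ofReal x * ENNReal.ofReal (Real.exp x) =
      ENNReal.ofReal (1 + 8 * ((L : ℝ) * √(L : ℝ)) * x * Real.exp x) := by
    rw [ENNReal.ofReal_add zero_le_one (by positivity), ENNReal.ofReal_one,
      ENNReal.ofReal_mul (by positivity), ENNReal.ofReal_mul (by positivity),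
      ENNReal.ofReal_mul (by norm_num), ENNReal.ofReal_mul (by positivity), rt_natCast,
      ENNReal.ofReal_natCast]
    norm_num
  rw [e2]
  exact ENNReal.ofReal_le_ofReal (real_end L θ x hL' hθ0 hθ1 hx0 hsum)

end Pool.Agent.BU
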