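import Pool.Agent.BU.Defs
import Pool.Agent.BT.Split

set_option autoImplicit false

open scoped ENNReal
open Filter Topology Pool.Agent.SawTree Pool.Agent.BB Pool.Agent.BT

namespace Pool.Agent.BU

section Abstract

variable {α : Type} (ht : α → ℕ) (w : α → ℝ≥0∞)

/-- the first passage of the largest possible scale -/
theorem sp_first {S : ℕ → ℕ} {K r : ℕ} (h : IsScale ht w S K r) (A : ℕ) (l : List α)
    (hl : hL ht l = A) (hA : 8 * r ≤ A) :
    ∃ s' ≤ K, ∃ q t : List α, l = q ++ t ∧ q ∈ Vset ht (S s') ∧ 2 * hL ht q ≤ A ∧
      (s' = K ∨ ∃ y a t', t = y ++ a :: t' ∧ hL ht y < S (s' + 1) ∧ hL ht (q ++ y) < r ∧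
        A < 2 * hL ht (q ++ y ++ [a])) := by
  classical
  set P : ℕ → Prop := fun s => ∃ q t : List α, l = q ++ t ∧ q ∈ Vset ht (S s) ∧
    2 * hL ht q ≤ A with hP
  have hP0 : P 0 := by
    refine ⟨[], l, rfl, ?_, ?_⟩
    · rw [h.zero, Vset_zero]
      rfl
    · simp [hL]
  have h1 := Nat.findGreatest_spec (P := P) (Nat.zero_le K) hP0
  have h2 := Nat.findGreatest_le (P := P) K
  have h3 := fun k => Nat.findGreatest_is_greatest (P := P) (n := K) (k := k)
  set s' := Nat.findGreatest P K with hs'
  obtain ⟨q, t, e, hq, hq2⟩ := h1
  refine ⟨s', h2, q, t, e, hq, hq2, ?_⟩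
  by_cases hj : s' = K
  · exact Or.inl hj
  · right
    have hlt : s' < K := by omega
    have hSr : S (s' + 1) ≤ r := h.le (s' + 1) (by omega)
    have hr1 : 1 ≤ r := h.one_le_r
    have hSlt : S s' < S (s' + 1) := h.lt s' hlt
    obtain ⟨q', t', e', hq'⟩ := exists_first_passage ht (S (s' + 1)) l (by omega)
    have hn : ¬ (2 * hL ht q' ≤ A) := fun hc => h3 (s' + 1) (by omega) (by omega)
      ⟨q', t', e', hq', hc⟩
    obtain ⟨c, hc, e1, e2⟩ := sp_cmp ht (e.symm.trans e') (by omega)
    obtain ⟨y, a, rfl⟩ := exists_last hc
    have h5 : hL ht (q ++ y) < S (s' + 1) :=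
      hq'.2 (q ++ y) [a] (by rw [e1]; simp) (by simp)
    have h7 := win_hL_append ht q y
    refine ⟨y, a, t', by rw [e2]; simp, by omega, by omega, ?_⟩
    have h10 : q ++ y ++ [a] = q' := by rw [e1]; simp
    rw [h10]
    omega

theorem exists_split (hht : ∀ a, 1 ≤ ht a) {S : ℕ → ℕ} {K r : ℕ} (h : IsScale ht w S K r) (A : ℕ)
    (hA : 8 * r ≤ A) (hA2 : A < 16 * r) (l : List α) (hl : hL ht l = A) :
    ∃ (s' s : ℕ) (q m p : List α), s' ≤ K ∧ s ≤ K ∧ q ∈ Vset ht (S s') ∧
      p ∈ Vset ht (S s) ∧ m ∈ Mid ht S K r s' s ∧ l = q ++ m ++ p.reverse ∧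
      2 * hL ht q ≤ A ∧ 2 * hL ht p ≤ A := by
  have hpos : 1 ≤ r := h.one_le_r
  obtain ⟨s', hs', q, t0, e, hq, hq2, hc'⟩ := sp_first ht w h A l hl hA
  obtain ⟨s, hs, p, t, f, hp, hp2, hc⟩ := sp_first ht w h A l.reverse
    (by rw [sp_hL_reverse]; exact hl) hA
  have f' : l = t.reverse ++ p.reverse := by
    rw [← List.reverse_append, ← f, List.reverse_reverse]
  have hqr : hL ht q + hL ht t0 = A := by rw [← win_hL_append, ← e]; exact hl
  have htp : hL ht t + hL ht p = A := by
    have := win_hL_append ht t.reverse p.reverse
    rw [← f', sp_hL_reverse, sp_hL_reverse, hl] at this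
    omega
  by_cases hsj : s = K
  · by_cases hsj' : s' = K
    · -- both at the top scale
      have key : ∃ m, l = q ++ m ++ p.reverse := by
        rcases List.append_eq_append_iff.1 (e.symm.trans f') with ⟨m, h1, h2⟩ | ⟨m, h1, h2⟩
        · exact ⟨m, by rw [e, h2]; simp⟩
        · by_cases hm : m = []
          · subst hm
            rw [List.nil_append] at h2
            exact ⟨[], by rw [e, ← h2]; simp⟩
          · exfalso
            have h3 := congrArg (hL ht) h1
            have h4 := congrArg (hL ht) h2
            rw [win_hL_append, sp_hL_reverse] at h3 h4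
            have h5 : 1 ≤ hL ht m := win_hL_pos ht hht hm
            omega
      obtain ⟨m, hm⟩ := key
      refine ⟨s', s, q, m, p, hs', hs, hq, hp, Or.inl ⟨hsj', hsj, ?_⟩, hm, hq2, hp2⟩
      have h1 := congrArg (hL ht) hm
      rw [win_hL_append, win_hL_append] at h1
      omega
    · -- `s` is the top scale, `s'` is not
      rcases hc' with hc' | ⟨y, a, t', hr, hy, hqy, hqa⟩
      · exact absurd hc' hsj'
      · have h1 := win_hL_append ht q y
        have h2 := win_hL_append ht (q ++ y) [a]
        have h3 := sp_hL_single ht a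
        have e1 : l = (q ++ y ++ [a]) ++ t' := by rw [e, hr]; simp
        have h4 : hL ht (q ++ y ++ [a]) + hL ht t' = A := by
          rw [← win_hL_append, ← e1]; exact hl
        -- the final part is inside `t'`
        have key : ∃ x, t' = x ++ p.reverse := by
          rcases List.append_eq_append_iff.1 (e1.symm.trans f') with ⟨x, h5, h6⟩ | ⟨x, h5, h6⟩
          · exact ⟨x, h6⟩
          · by_cases hx : x = []
            · subst hx
              rw [List.nil_append] at h6
              exact ⟨[], by rw [← h6]; simp⟩
            · exfalso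
              obtain ⟨x', b, hx'⟩ := exists_last hx
              rw [hx', ← List.append_assoc] at h5
              obtain ⟨h7, h8⟩ := List.append_inj' h5 rfl
              have h9 : a = b := by simpa using h8
              subst h9
              have h10 := congrArg (hL ht) h6
              rw [sp_hL_reverse, hx', win_hL_append, win_hL_append] at h10
              omega
        obtain ⟨x, hx⟩ := key
        have h5 := win_hL_append ht x p.reverse
        rw [← hx] at h5
        refine ⟨s', s, q, y ++ a :: x, p, hs', hs, hq, hp, Or.inr ⟨fun h => hsj' h.1, y, a, x, rfl,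
          ?_, ?_, by omega⟩, ?_, hq2, hp2⟩
        · unfold fs
          rw [if_neg hsj']
          exact hy
        · unfold fs
          rw [if_pos hsj]
          omega
        · rw [e1, hx]; simp
  · -- `s` is not the top scale
    rcases hc with hc | ⟨x, a, t', hr, hx, hpx, hpa⟩
    · exact absurd hc hsj
    · have h1 := win_hL_append ht p x
      have h2 := win_hL_append ht (p ++ x) [a]
      have h3 := sp_hL_single ht a
      have e1 : l = t'.reverse ++ (a :: (x.reverse ++ p.reverse)) := by
        rw [f', hr]; simp
      have h4 : hL ht t' + hL ht (p ++ x ++ [a]) = A := by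
        have h5 := congrArg (hL ht) e1
        rw [win_hL_append, sp_hL_cons, win_hL_append, sp_hL_reverse, sp_hL_reverse,
          sp_hL_reverse] at h5
        omega
      -- the initial part is inside `t'.reverse`
      have key : ∃ y, t'.reverse = q ++ y := by
        rcases List.append_eq_append_iff.1 (e.symm.trans e1) with ⟨y, h5, h6⟩ | ⟨y, h5, h6⟩
        · exact ⟨y, h5⟩
        · cases y with
          | nil =>
            rw [List.append_nil] at h5
            exact ⟨[], by rw [h5]; simp⟩
          | cons b y =>
            exfalso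
            have h7 : a = b := by
              simp only [List.cons_append, List.cons.injEq] at h6
              exact h6.1
            subst h7
            have h8 := congrArg (hL ht) h5
            rw [win_hL_append, sp_hL_cons, sp_hL_reverse] at h8
            omega
      obtain ⟨y, hy⟩ := key
      have h5 := win_hL_append ht q y
      rw [← hy, sp_hL_reverse] at h5
      have e2 : l = (q ++ y) ++ (a :: (x.reverse ++ p.reverse)) := by rw [← hy]; exact e1
      refine ⟨s', s, q, y ++ a :: x.reverse, p, hs', hs, hq, hp, Or.inr ⟨fun h => hsj h.2, y, a,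
        x.reverse, rfl, ?_, ?_, by omega⟩, ?_, hq2, hp2⟩
      · unfold fs
        by_cases hsj' : s' = K
        · rw [if_pos hsj']
          omega
        · rw [if_neg hsj']
          rcases hc' with hc' | ⟨y', a', t'', hr', hy', hqy', hqa'⟩
          · exact absurd hc' hsj'
          · have e3 : l = (q ++ y' ++ [a']) ++ t'' := by rw [e, hr']; simp
            have h6 : hL ht (q ++ y) < hL ht (q ++ y' ++ [a']) := by
              have h7 := win_hL_append ht q y
              omega
            obtain ⟨c, hc, e4, -⟩ := sp_cmp ht (e2.symm.trans e3) h6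
            obtain ⟨c', b, rfl⟩ := exists_last hc
            rw [← List.append_assoc] at e4
            obtain ⟨e5, -⟩ := List.append_inj' e4 rfl
            rw [List.append_assoc] at e5
            have e6 := List.append_cancel_left e5
            rw [e6, win_hL_append] at hy'
            omega
      · unfold fs
        rw [if_neg hsj, sp_hL_reverse]
        exact hx
      · rw [e2]; simp

end Abstract

end Pool.Agent.BU
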