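import Pool.Agent.BU.Defs
import Pool.Agent.BT.Cluster

set_option autoImplicit false

open scoped ENNReal
open Filter Topology Pool.Agent.SawTree Pool.Agent.BB Pool.Agent.BT

namespace Pool.Agent.BU

section Abstract
variable {α : Type} (ht : α → ℕ) (dx : α → ℤ) (w : α → ℝ≥0∞)

/-- the block weights are the renewal sequence of the atoms `Vset s` -/
lemma clC_le_Bw (s i : ℕ) :
    clC ht w s i ≤ Bw (fun v : Vset ht s => hL ht v.1) (fun v : Vset ht s => wL w v.1) i := by
  classical
  have hch : ∀ L : List (List α), ∃ L' : List (Vset ht s), (∀ v ∈ L, v ∈ Vset ht s) →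
      L'.map Subtype.val = L := by
    intro L
    induction L with
    | nil => exact ⟨[], fun _ => rfl⟩
    | cons v L ih =>
      obtain ⟨L', h'⟩ := ih
      by_cases hv : v ∈ Vset ht s
      · refine ⟨⟨v, hv⟩ :: L', fun h => ?_⟩
        rw [List.map_cons, h' (fun u hu => h u (List.mem_cons_of_mem v hu))]
      · exact ⟨[], fun h => absurd (h v (by simp)) hv⟩
  choose f hf using hch
  have hH : ∀ L : List (Vset ht s), hL (fun v : Vset ht s => hL ht v.1) L
      = hL ht (L.map Subtype.val).flatten := by
    intro L
    induction L with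
    | nil => simp [hL]
    | cons v L ih =>
      rw [win_hL_cons, List.map_cons, List.flatten_cons, win_hL_append, ih]
  have hW : ∀ L : List (Vset ht s), wL (fun v : Vset ht s => wL w v.1) L
      = wL w (L.map Subtype.val).flatten := by
    intro L
    induction L with
    | nil => simp [wL]
    | cons v L ih =>
      rw [win_wL_cons, List.map_cons, List.flatten_cons, win_wL_append, ih]
  unfold clC Bw
  apply wsum_le_of_injOn f
  · rintro L ⟨h1, h2⟩
    show hL _ (f L) = i
    rw [hH, hf L h1, h2]
  · rintro L ⟨h1, _⟩ L' ⟨h1', _⟩ he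
    rw [← hf L h1, ← hf L' h1', he]
  · rintro L ⟨h1, _⟩
    rw [hW, hf L h1]

/-- window sums of length `s` of the block weights -/
lemma sum_clC_window (hht : ∀ a, 1 ≤ ht a) (hw : ∑' a, w a ≤ 1) (s : ℕ) (hs : 1 ≤ s) (m : ℕ) :
    ∑ i ∈ Finset.Ico m (m + s), clC ht w s i ≤ 1 := by
  have h1 : ∀ v : Vset ht s, 1 ≤ hL ht v.1 := fun v => by
    have := v.2.1
    omega
  have h2 : ∑' v : Vset ht s, wL w v.1 ≤ 1 := Vset_le_one ht w hht hw s
  refine le_trans (Finset.sum_le_sum (fun i _ => clC_le_Bw ht w s i)) ?_
  refine le_trans (window (fun v : Vset ht s => hL ht v.1) (fun v : Vset ht s => wL w v.1)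
    h1 h2 m s) ?_
  rw [Finset.sum_eq_single 0]
  · rw [Bw_zero _ _ h1]
  · intro n hn hn0
    rw [Finset.mem_range] at hn
    have : {l : List (Vset ht s) | hL (fun v : Vset ht s => hL ht v.1) l = n} = ∅ := by
      rw [Set.eq_empty_iff_forall_notMem]
      intro l hl
      have hl' : hL (fun v : Vset ht s => hL ht v.1) l = n := hl
      cases l with
      | nil =>
        simp [hL] at hl'
        exact hn0 hl'.symm
      | cons v l =>
        rw [win_hL_cons] at hl'
        have := v.2.1
        omega
    unfold Bw
    rw [this]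
    unfold wsum
    simp
  · intro h
    exact absurd (Finset.mem_range.mpr (by omega)) h

/-- `V_m / G_m` is almost decreasing -/
theorem cluster1 (hht : ∀ a, 1 ≤ ht a) (hw : ∑' a, w a ≤ 1) (m s : ℕ) (hs : 1 ≤ s) :
    VV ht w m * GG ht w s ≤ GG ht w (m + s) * VV ht w s := by
  let a : ℕ → ℝ≥0∞ := fun i => if i < m then clC ht w s i else 0
  let b : ℕ → ℝ≥0∞ := fun k => if k < s then Bw ht w k ^ 2 else 0
  have ha : ∑' i, a i = ∑ i ∈ Finset.range m, clC ht w s i := by
    rw [tsum_eq_sum (s := Finset.range m)]
    · apply Finset.sum_congr rfl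
      intro i hi
      simp only [a, if_pos (Finset.mem_range.mp hi)]
    · intro i hi
      rw [Finset.mem_range] at hi
      simp only [a, if_neg hi]
  have hb : ∑' k, b k = VV ht w s := by
    unfold VV
    rw [tsum_eq_sum (s := Finset.range s)]
    · apply Finset.sum_congr rfl
      intro i hi
      simp only [b, if_pos (Finset.mem_range.mp hi)]
    · intro i hi
      rw [Finset.mem_range] at hi
      simp only [b, if_neg hi]
  have h0 : ∀ n, Bw ht w n ^ 2 ≤ ∑ i ∈ Finset.range (n + 1), clC ht w s i * b (n - i) := by
    intro n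
    have h1 := Bw_le_cl ht w s hs n
    have h2 : ∑ i ∈ Finset.range (n + 1), clC ht w s i *
        (if n - i < s then Bw ht w (n - i) else 0) =
        ∑ i ∈ Finset.range (n + 1), (if n - i < s then clC ht w s i else 0) *
          Bw ht w (n - i) := by
      apply Finset.sum_congr rfl
      intro i _
      split_ifs
      · rfl
      · simp
    rw [h2] at h1
    have h3 : ∑ i ∈ Finset.range (n + 1), (if n - i < s then clC ht w s i else 0) ≤ 1 := by
      rw [← Finset.sum_filter]
      refine le_trans ?_ (sum_clC_window ht w hht hw s hs (n + 1 - s))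
      apply Finset.sum_le_sum_of_subset
      intro i hi
      rw [Finset.mem_filter, Finset.mem_range] at hi
      rw [Finset.mem_Ico]
      omega
    calc Bw ht w n ^ 2 ≤ (∑ i ∈ Finset.range (n + 1), (if n - i < s then clC ht w s i else 0) *
          Bw ht w (n - i)) ^ 2 := by gcongr
      _ ≤ (∑ i ∈ Finset.range (n + 1), (if n - i < s then clC ht w s i else 0)) *
          ∑ i ∈ Finset.range (n + 1), (if n - i < s then clC ht w s i else 0) *
            Bw ht w (n - i) ^ 2 := cauchy_weight _ _ _
      _ ≤ 1 * ∑ i ∈ Finset.range (n + 1), (if n - i < s then clC ht w s i else 0) *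
            Bw ht w (n - i) ^ 2 := by gcongr
      _ = ∑ i ∈ Finset.range (n + 1), clC ht w s i * b (n - i) := by
          rw [one_mul]
          apply Finset.sum_congr rfl
          intro i _
          simp only [b]
          split_ifs
          · rfl
          · simp
  have h1 : VV ht w m ≤ (∑' i, a i) * ∑' k, b k := by
    refine le_trans ?_ (tsum_conv_le a b)
    unfold VV
    refine le_trans (Finset.sum_le_sum ?_) (ENNReal.sum_le_tsum (Finset.range m))
    intro n hn
    rw [Finset.mem_range] at hn
    refine le_trans (h0 n) ?_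
    apply Finset.sum_le_sum
    intro i hi
    rw [Finset.mem_range] at hi
    simp only [a, if_pos (show i < m by omega)]
    exact le_rfl
  rw [ha, hb] at h1
  calc VV ht w m * GG ht w s
      ≤ ((∑ i ∈ Finset.range m, clC ht w s i) * VV ht w s) * GG ht w s := by gcongr
    _ = ((∑ i ∈ Finset.range m, clC ht w s i) * GG ht w s) * VV ht w s := by ring
    _ ≤ GG ht w (m + s) * VV ht w s := by
        gcongr
        exact sum_cl_mul_le ht w m s

end Abstract

end Pool.Agent.BU
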