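import Pool.Agent.BT.Basic
import Pool.Agent.BT.Young

set_option autoImplicit false

open scoped ENNReal
open Filter Topology Pool.Agent.SawTree Pool.Agent.BB Pool.Agent.BT

namespace Pool.Agent.BU

section Abstract

variable {α : Type}

/-- size of a scale -/
def zz (S : ℕ → ℕ) (s : ℕ) : ℕ := max (S s) 1

/-- `S 0 = 0 < S 1 < ... < S K = r` is a sequence of scales such that the weight `G` is at most
multiplied by sixteen from one scale to the next and at least multiplied by sixteen in two steps -/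
structure IsScale (ht : α → ℕ) (w : α → ℝ≥0∞) (S : ℕ → ℕ) (K r : ℕ) : Prop where
  zero : S 0 = 0
  top : S K = r
  one_le_r : 1 ≤ r
  one_le_K : 1 ≤ K
  le : ∀ s ≤ K, S s ≤ r
  lt : ∀ s < K, S s < S (s + 1)
  up : ∀ s < K, GG ht w (S (s + 1)) ≤ 16 * GG ht w (zz S s)
  down : ∀ s, s + 2 ≤ K → 16 * GG ht w (zz S s) ≤ GG ht w (S (s + 2))

/-- fourth root of the relative weight of a scale -/
noncomputable def ee (ht : α → ℕ) (w : α → ℝ≥0∞) (S : ℕ → ℕ) (r s : ℕ) : ℝ≥0∞ :=
  (GG ht w (zz S s) / GG ht w r) ^ (1 / 4 : ℝ)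

/-- size of the free piece between the first passage of scale `s` and the long atom; the top scale
is `K` -/
def fs (S : ℕ → ℕ) (K r s : ℕ) : ℕ := if s = K then 8 * r else S (s + 1)

/-- middle pieces of the lists of height in `[8 r, 16 r)`: `s'` is the scale of the initial piece,
`s` the scale of the final piece -/
def Mid (ht : α → ℕ) (S : ℕ → ℕ) (K r s' s : ℕ) : Set (List α) :=
  {m | (s' = K ∧ s = K ∧ hL ht m < 16 * r) ∨
    (¬ (s' = K ∧ s = K) ∧ ∃ y a x, m = y ++ a :: x ∧ hL ht y < fs S K r s' ∧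
      hL ht x < fs S K r s ∧ r ≤ ht a)}

/-- weight of the middle pieces of height `n` -/
noncomputable def Rw (ht : α → ℕ) (w : α → ℝ≥0∞) (S : ℕ → ℕ) (K r s' s n : ℕ) : ℝ≥0∞ :=
  wsum {m | m ∈ Mid ht S K r s' s ∧ hL ht m = n} (wL w)

/-- weight of the coupled pairs (first passage of scale `s'`, first passage of scale `s`) of heights
`y`, `x` -/
noncomputable def kap (ht : α → ℕ) (dx : α → ℤ) (w : α → ℝ≥0∞) (S : ℕ → ℕ) (s' s y x : ℕ) :
    ℝ≥0∞ :=
  wsum {p : List α × List α | p.1 ∈ Vset ht (S s') ∧ p.2 ∈ Vset ht (S s) ∧ hL ht p.1 = y ∧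
    hL ht p.2 = x ∧ KK ht dx p.1 p.2} (w2 w)

end Abstract

end Pool.Agent.BU
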