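import Pool.Agent.BU.Defs
import Pool.Agent.BT.Opt

/-!
From the bounds of the dyadic blocks to the bound of the whole sum (version without logarithms).
-/

set_option autoImplicit false

open scoped ENNReal
open Filter Topology Pool.Agent.SawTree Pool.Agent.BB Pool.Agent.BT

namespace Pool.Agent.BU

/-- one block term -/
noncomputable def ot (i j : ℕ) : ℝ := √(8 * 2 ^ j) * Real.exp (-(2 ^ j / 4 ^ i))

theorem ot_sqrt (j : ℕ) : √(8 * 2 ^ j) = √8 * √2 ^ j := by
  rw [Real.sqrt_mul (by norm_num)]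
  congr 1
  rw [Real.sqrt_eq_iff_mul_self_eq (by positivity) (by positivity),
    ← mul_pow, Real.mul_self_sqrt (by norm_num)]

theorem ot_low (i m : ℕ) :
    ∑ j ∈ Finset.range m, ot i j ≤ √8 * (√2 + 1) * √2 ^ m := by
  have hs : √2 * √2 = (2 : ℝ) := Real.mul_self_sqrt (by norm_num)
  induction m with
  | zero =>
    simp only [Finset.range_zero, Finset.sum_empty]
    positivity
  | succ m ih =>
    rw [Finset.sum_range_succ]
    have h1 : ot i m ≤ √8 * √2 ^ m := by
      unfold ot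
      rw [ot_sqrt]
      have h2 : Real.exp (-(2 ^ m / 4 ^ i)) ≤ 1 := by
        rw [Real.exp_le_one_iff]
        have : (0 : ℝ) ≤ 2 ^ m / 4 ^ i := by positivity
        linarith
      calc _ ≤ √8 * √2 ^ m * 1 := by gcongr
        _ = _ := mul_one _
    calc _ ≤ √8 * (√2 + 1) * √2 ^ m + √8 * √2 ^ m := add_le_add ih h1
      _ = √8 * √2 ^ m * (√2 * √2 + √2) := by rw [hs]; ring
      _ = _ := by rw [pow_succ]; ring

theorem ot_high (i k : ℕ) :
    ∑ j ∈ Finset.range (2 * i + 1 + k), ot i j ≤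
      √8 * (√2 + 1) * (√2 * 2 ^ i) + √8 * (√2 + 1) * (1 - (√2 / 2) ^ k) * 2 ^ i := by
  have hs : √2 * √2 = (2 : ℝ) := Real.mul_self_sqrt (by norm_num)
  induction k with
  | zero =>
    have h1 := ot_low i (2 * i + 1)
    have h2 : √2 ^ (2 * i + 1) = √2 * 2 ^ i := by
      rw [pow_succ, pow_mul, Real.sq_sqrt (by norm_num)]
      ring
    rw [h2] at h1
    simpa using h1
  | succ k ih =>
    rw [← add_assoc, Finset.sum_range_succ]
    have h1 : ot i (2 * i + 1 + k) ≤ √8 * (√2 / 2) ^ (k + 1) * 2 ^ i := by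
      unfold ot
      rw [ot_sqrt]
      have hx : (2 : ℝ) ^ (2 * i + 1 + k) / 4 ^ i = 2 ^ (k + 1) := by
        have : (2 : ℝ) ^ (2 * i + 1 + k) = 4 ^ i * 2 ^ (k + 1) := by
          rw [show 2 * i + 1 + k = 2 * i + (k + 1) by ring, pow_add, pow_mul]
          norm_num
        rw [this]
        field_simp
      rw [hx]
      have h2 : Real.exp (-(2 ^ (k + 1))) ≤ 1 / (2 : ℝ) ^ (k + 1) := by
        rw [Real.exp_neg, one_div]
        apply inv_anti₀ (by positivity)
        have := Real.add_one_le_exp ((2 : ℝ) ^ (k + 1))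
        linarith
      have h3 : √2 ^ (2 * i + 1 + k) = 2 ^ i * √2 ^ (k + 1) := by
        rw [show 2 * i + 1 + k = 2 * i + (k + 1) by ring, pow_add, pow_mul,
          Real.sq_sqrt (by norm_num)]
      calc √8 * √2 ^ (2 * i + 1 + k) * Real.exp (-(2 ^ (k + 1)))
          ≤ √8 * (2 ^ i * √2 ^ (k + 1)) * (1 / (2 : ℝ) ^ (k + 1)) := by
            rw [h3]
            gcongr
        _ = √8 * (√2 / 2) ^ (k + 1) * 2 ^ i := by
            rw [div_pow]
            ring
    have e : √8 * (√2 / 2) ^ (k + 1) * 2 ^ i =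
        √8 * (√2 + 1) * ((√2 / 2) ^ k - (√2 / 2) ^ (k + 1)) * 2 ^ i := by
      have e2 : (√2 + 1) * ((√2 / 2) ^ k - (√2 / 2) ^ (k + 1)) = (√2 / 2) ^ (k + 1) := by
        rw [pow_succ]
        have : (√2 + 1) * ((√2 / 2) ^ k - (√2 / 2) ^ k * (√2 / 2)) =
          (√2 / 2) ^ k * (√2 + 1 - (√2 * √2) / 2 - √2 / 2) := by ring
        rw [this, hs]
        ring
      rw [mul_assoc √8 (√2 + 1), e2]
    rw [e] at h1
    calc _ ≤ (√8 * (√2 + 1) * (√2 * 2 ^ i) + √8 * (√2 + 1) * (1 - (√2 / 2) ^ k) * 2 ^ i) +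
        √8 * (√2 + 1) * ((√2 / 2) ^ k - (√2 / 2) ^ (k + 1)) * 2 ^ i := add_le_add ih h1
      _ = _ := by ring

theorem ot_nonneg (i j : ℕ) : 0 ≤ ot i j := by
  unfold ot
  positivity

theorem ot_sum (i m : ℕ) : ∑ j ∈ Finset.range m, ot i j ≤ 17 * 2 ^ i := by
  have h1 : ∑ j ∈ Finset.range m, ot i j ≤ ∑ j ∈ Finset.range (2 * i + 1 + m), ot i j :=
    Finset.sum_le_sum_of_subset_of_nonneg (Finset.range_mono (by omega))
      (fun j _ _ => ot_nonneg i j)
  refine h1.trans ((ot_high i m).trans ?_)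
  have h2 : 1 - (√2 / 2) ^ m ≤ 1 := by
    have : (0 : ℝ) ≤ (√2 / 2) ^ m := by positivity
    linarith
  have h8 : √8 = 2 * √2 := by
    rw [Real.sqrt_eq_iff_mul_self_eq (by norm_num) (by positivity)]
    have hs : √2 * √2 = (2 : ℝ) := Real.mul_self_sqrt (by norm_num)
    nlinarith
  have hs : √2 * √2 = (2 : ℝ) := Real.mul_self_sqrt (by norm_num)
  have h3 : √2 ≤ 1.4143 := by
    rw [Real.sqrt_le_left (by norm_num)]
    norm_num
  calc _ ≤ √8 * (√2 + 1) * (√2 * 2 ^ i) + √8 * (√2 + 1) * 1 * 2 ^ i := by gcongr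
    _ = (2 * (√2 * √2) * √2 + 4 * (√2 * √2) + 2 * √2) * 2 ^ i := by rw [h8]; ring
    _ = (6 * √2 + 8) * 2 ^ i := by rw [hs]; ring
    _ ≤ 17 * 2 ^ i := by
      gcongr
      linarith

/-- from the bounds of the dyadic blocks to the bound of the whole sum -/
theorem opt_sum (i : ℕ) (H : ℕ → ℝ≥0∞) (hH0 : H 0 ≤ 1)
    (h1 : ∀ A, 1 ≤ A → H A ≤ ∑ A' ∈ Finset.range A, H A')
    (h2 : ∀ j : ℕ, ∑ A ∈ Finset.range (16 * 2 ^ j), H A ≤ (∑ A ∈ Finset.range (8 * 2 ^ j), H A) *
      ENNReal.ofReal (Real.exp (33000 * √(8 * 2 ^ j) * Real.exp (-(2 ^ j / 4 ^ i))))) :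
    ∑' A, H A ≤ ENNReal.ofReal (Real.exp (5 + 561000 * 2 ^ i)) := by
  have h3 : ∀ m : ℕ, ∑ A ∈ Finset.range (8 * 2 ^ m), H A ≤
      ENNReal.ofReal (Real.exp (5 + 33000 * ∑ j ∈ Finset.range m, ot i j)) := by
    intro m
    induction m with
    | zero =>
      have := opt_eight 1 zero_le_one le_rfl H hH0 (by
        intro A hA
        simpa using h1 A hA)
      simpa using this
    | succ m ih =>
      have e1 : 8 * 2 ^ (m + 1) = 16 * 2 ^ m := by
        rw [pow_succ]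
        ring
      rw [e1]
      refine (h2 m).trans ?_
      rw [Finset.sum_range_succ]
      calc _ ≤ ENNReal.ofReal (Real.exp (5 + 33000 * ∑ j ∈ Finset.range m, ot i j)) *
            ENNReal.ofReal (Real.exp (33000 * √(8 * 2 ^ m) * Real.exp (-(2 ^ m / 4 ^ i)))) := by
            gcongr
        _ = _ := by
            rw [← ENNReal.ofReal_mul (Real.exp_nonneg _), ← Real.exp_add]
            congr 2
            unfold ot
            ring
  rw [ENNReal.tsum_eq_iSup_nat]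
  refine iSup_le fun n => ?_
  have h4 : n ≤ 8 * 2 ^ n := by
    have := Nat.lt_two_pow_self (n := n)
    omega
  refine (Finset.sum_le_sum_of_subset (Finset.range_mono h4)).trans ((h3 n).trans ?_)
  refine ENNReal.ofReal_le_ofReal (Real.exp_le_exp.2 ?_)
  have := ot_sum i n
  linarith

end Pool.Agent.BU
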