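import Pool.Agent.BT.Rec

set_option autoImplicit false

open scoped ENNReal
open Filter Topology Pool.Agent.SawTree Pool.Agent.BB Pool.Agent.BT

namespace Pool.Agent.BU

/-- weight of the word against the weights of its first bridge and of the rest; the first bridge
has length at least `L` -/
theorem pow_cut' (z e : ℝ≥0∞) (he : e ≤ 1) (L : ℕ) (l' : List Atom) (hL : L ≤ hL aht l')
    (r2 : Wd) :
    (z * e) ^ (bd l' ++ r2.map refl).length ≤
      (e ^ L * wL (aw z) l') * (z * e) ^ r2.length := by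
  rw [List.length_append, List.length_map, pow_add, bd_length z l']
  have h1 : L ≤ (bd l').length := le_trans hL (Bd_length (bd_mem l'))
  have h2 : (z * e) ^ (bd l').length ≤ e ^ L * z ^ (bd l').length := by
    rw [mul_pow, mul_comm]
    exact mul_le_mul' (pow_le_pow_right_of_le_one' he h1) le_rfl
  exact mul_le_mul' h2 le_rfl

theorem FF_rec (z e : ℝ≥0∞) (he : e ≤ 1) (L A : ℕ) (hL1 : 1 ≤ L) (l : List Atom)
    (hAl : A ≤ hL aht l) :
    FF (z * e) A l ≤ (∑ A' ∈ Finset.range L, Wt (z * e) (HS A')) +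
      e ^ L * ∑ A' ∈ Finset.Ico L A, wsum {l' | hL aht l' = A' ∧ KK aht adx l l'.reverse}
        (fun l' => wL (aw z) l' * FF (z * e) A' l') := by
  have h1 : FF (z * e) A l ≤
      wsum ({r : Wd | ∃ A' ∈ Finset.range L, r ∈ HS A'} ∪
        {r : Wd | ∃ A' ∈ Finset.Ico L A, r ∈ {r : Wd | r ∈ HS A' ∧ Saw (bd l ++ r.map refl)}})
        (fun u => (z * e) ^ u.length) := by
    rw [FF_eq]
    apply wsum_mono _ (fun _ _ => le_rfl)
    rintro r ⟨⟨A', hA', hr⟩, hS⟩
    by_cases h : A' < L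
    · left
      exact ⟨A', Finset.mem_range.mpr h, hr⟩
    · right
      exact ⟨A', Finset.mem_Ico.mpr ⟨by omega, hA'⟩, hr, hS⟩
  refine le_trans h1 (le_trans (wsum_union_le _ _ _) (add_le_add ?_ ?_))
  · exact wsum_biUnion_le (Finset.range L) (fun A' => HS A') _
  · refine le_trans (wsum_biUnion_le (Finset.Ico L A)
      (fun A' => {r : Wd | r ∈ HS A' ∧ Saw (bd l ++ r.map refl)}) _) ?_
    rw [Finset.mul_sum]
    apply Finset.sum_le_sum
    intro A' hA'
    rw [Finset.mem_Ico] at hA'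
    rw [← wsum_mul_left]
    have h2 : (fun l' => e ^ L * (wL (aw z) l' * FF (z * e) A' l'))
        = fun l' => (e ^ L * wL (aw z) l') *
          wsum {r | (∃ A'' < A', r ∈ HS A'') ∧ Saw (bd l' ++ r.map refl)}
          (fun u => (z * e) ^ u.length) := by
      funext l'
      rw [mul_assoc]
      rfl
    rw [h2]
    apply wsum_le_iter (fun l' => {r | (∃ A'' < A', r ∈ HS A'') ∧ Saw (bd l' ++ r.map refl)})
      (fun l' => e ^ L * wL (aw z) l') (fun u => (z * e) ^ u.length)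
      (fun l' r => bd l' ++ r.map refl)
    rintro r ⟨hr, hS⟩
    obtain ⟨b, r2, e1, hb, A'', hA'', hr2⟩ := exists_cut (by omega) hr
    obtain ⟨l', hl', hh⟩ := exists_bd hb
    subst hl'
    refine ⟨l', ⟨hh, ?_⟩, r2, ⟨⟨A'', hA'', hr2⟩, ?_⟩, e1, ?_⟩
    · apply KK_of_saw
      · omega
      · apply hS.left (b := r2)
        rw [e1, List.map_append, refl_refl, List.append_assoc]
    · rw [← e1]
      exact hr.1
    · rw [e1]
      exact pow_cut' z e he L l' (by omega) r2

theorem HS_rec (z e : ℝ≥0∞) (he : e ≤ 1) (L K : ℕ) (hL1 : 1 ≤ L) (hLK : L ≤ K) :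
    ∑ A' ∈ Finset.range K, Wt (z * e) (HS A') ≤ (∑ A' ∈ Finset.range L, Wt (z * e) (HS A')) +
      e ^ L * ∑ A' ∈ Finset.Ico L K, wsum {l' | hL aht l' = A'}
        (fun l' => wL (aw z) l' * FF (z * e) A' l') := by
  rw [← Finset.sum_range_add_sum_Ico (fun A' => Wt (z * e) (HS A')) hLK]
  refine add_le_add le_rfl ?_
  rw [Finset.mul_sum]
  refine Finset.sum_le_sum ?_
  intro A' hA'
  rw [Finset.mem_Ico] at hA'
  rw [← wsum_mul_left]
  have h2 : (fun l' => e ^ L * (wL (aw z) l' * FF (z * e) A' l'))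
      = fun l' => (e ^ L * wL (aw z) l') *
        wsum {r | (∃ A'' < A', r ∈ HS A'') ∧ Saw (bd l' ++ r.map refl)}
        (fun u => (z * e) ^ u.length) := by
    funext l'
    rw [mul_assoc]
    rfl
  rw [h2, Wt_eq_wsum]
  apply wsum_le_iter (fun l' => {r | (∃ A'' < A', r ∈ HS A'') ∧ Saw (bd l' ++ r.map refl)})
    (fun l' => e ^ L * wL (aw z) l') (fun u => (z * e) ^ u.length)
    (fun l' r => bd l' ++ r.map refl)
  intro r hr
  obtain ⟨b, r2, e1, hb, A'', hA'', hr2⟩ := exists_cut (by omega) hr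
  obtain ⟨l', hl', hh⟩ := exists_bd hb
  subst hl'
  refine ⟨l', hh, r2, ⟨⟨A'', hA'', hr2⟩, ?_⟩, e1, ?_⟩
  · rw [← e1]
    exact hr.1
  · rw [e1]
    exact pow_cut' z e he L l' (by omega) r2

end Pool.Agent.BU
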