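import Pool.Agent.BU.Chain
import Pool.Agent.BU.Rec
import Pool.Agent.BU.Opt
import Pool.Agent.BB.Final

set_option autoImplicit false

open scoped ENNReal
open Filter Topology Pool.Agent.SawTree Pool.Agent.BB Pool.Agent.BT

namespace Pool.Agent.BU

/-- one dyadic block of the recursion on the maximal height -/
theorem block_le (z : ℝ≥0∞) (t : ℝ) (ht : 0 ≤ t) (hz0 : 0 < z) (hz : z ≤ crit) (j : ℕ) :
    ∑ A ∈ Finset.range (16 * 2 ^ j), Wt (z * ENNReal.ofReal (Real.exp (-t))) (HS A) ≤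
      (∑ A ∈ Finset.range (8 * 2 ^ j), Wt (z * ENNReal.ofReal (Real.exp (-t))) (HS A)) *
        ENNReal.ofReal (Real.exp (33000 * √(8 * 2 ^ j) * Real.exp (-(t * 2 ^ j)))) := by
  set e : ℝ≥0∞ := ENNReal.ofReal (Real.exp (-t)) with he
  have he1 : e ≤ 1 := by
    rw [he]
    apply ENNReal.ofReal_le_one.mpr
    apply Real.exp_le_one_iff.mpr
    linarith
  have hr : 1 ≤ 2 ^ j := Nat.one_le_two_pow
  have hL1 : 1 ≤ 8 * 2 ^ j := by omega
  have hLK : 8 * 2 ^ j ≤ 16 * 2 ^ j := by omega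
  have heL : e ^ (8 * 2 ^ j) = ENNReal.ofReal (Real.exp (-(t * 2 ^ j)) ^ 8) := by
    rw [he, ← ENNReal.ofReal_pow (Real.exp_pos _).le]
    congr 1
    rw [← Real.exp_nat_mul, ← Real.exp_nat_mul]
    congr 1
    push_cast
    ring
  have hθ : (Real.exp (-(t * 2 ^ j)) ^ 8 : ℝ) ^ (1 / 8 : ℝ) = Real.exp (-(t * 2 ^ j)) := by
    rw [← Real.rpow_natCast, ← Real.rpow_mul (Real.exp_pos _).le]
    norm_num
  have hmain := chain_main aht adx (aw z) one_le_aht (sum_aw_le_one hz0 hz) rho rho_rho aht_rho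
    adx_rho (aw_rho z) (2 ^ j) hr (Real.exp (-(t * 2 ^ j)) ^ 8) (by positivity)
    (pow_le_one₀ (Real.exp_pos _).le (Real.exp_le_one_iff.mpr (by
      have : (0 : ℝ) ≤ t * 2 ^ j := by positivity
      linarith))) (fun A l => FF (z * e) A l)
    (∑ A ∈ Finset.range (8 * 2 ^ j), Wt (z * e) (HS A))
    (∑ A ∈ Finset.range (16 * 2 ^ j), Wt (z * e) (HS A))
    (by
      intro A _ _ l hl
      rw [← heL]
      exact FF_rec z e he1 (8 * 2 ^ j) A hL1 l hl)
    (by
      rw [← heL]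
      exact HS_rec z e he1 (8 * 2 ^ j) (16 * 2 ^ j) hL1 hLK)
  rw [hθ] at hmain
  push_cast at hmain
  exact hmain

/-- the bound at the scale `i` -/
theorem cw_le_scale_third (μ : ℝ) (hμ : 0 < μ)
    (h : Tendsto (fun n : ℕ => (cw n : ℝ) ^ (1 / (n : ℝ))) atTop (𝓝 μ))
    (i n : ℕ) (hn : n ≤ 8 ^ i) :
    (cw n : ℝ) ≤ μ ^ n * Real.exp ((1122012 + μ) * 2 ^ i) := by
  set t : ℝ := 1 / 4 ^ i with ht
  set z : ℝ≥0∞ := ENNReal.ofReal (1 / μ) with hz
  set e : ℝ≥0∞ := ENNReal.ofReal (Real.exp (-t)) with he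
  have ht0 : 0 < t := by positivity
  have hz0 : 0 < z := by
    rw [hz, ENNReal.ofReal_pos]; positivity
  have hzc : z ≤ crit := inv_mu_le_crit μ hμ h
  have he1 : e ≤ 1 := by
    rw [he]
    apply ENNReal.ofReal_le_one.mpr
    apply Real.exp_le_one_iff.mpr
    linarith
  have hsum : ∑' A, Wt (z * e) (HS A) ≤
      ENNReal.ofReal (Real.exp (5 + 561000 * 2 ^ i)) := by
    apply opt_sum i (fun A => Wt (z * e) (HS A)) (Wt_HS_zero _)
    · intro A hA
      refine le_trans (HS_le_exp z e hz0 hzc he1 A hA) ?_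
      have h1 : e ^ A ≤ 1 := pow_le_one₀ (by positivity) he1
      calc e ^ A * ∑ A' ∈ Finset.range A, Wt (z * e) (HS A')
          ≤ 1 * ∑ A' ∈ Finset.range A, Wt (z * e) (HS A') := by gcongr
        _ = _ := one_mul _
    · intro j
      have h2 := block_le z t ht0.le hz0 hzc j
      have h3 : -(t * 2 ^ j) = -((2 : ℝ) ^ j / 4 ^ i) := by
        rw [ht]; ring
      rw [h3] at h2
      exact h2
  have hcut := saw_le_HS_sq (z * e) n
  have hze : z * e = ENNReal.ofReal (1 / μ * Real.exp (-t)) := by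
    rw [hz, he, ← ENNReal.ofReal_mul (by positivity)]
  have hW : z * e * Wt (z * e) {u : Wd | Saw u ∧ u.length = n}
      = ENNReal.ofReal ((cw n : ℝ) * (1 / μ * Real.exp (-t)) ^ (n + 1)) := by
    rw [Wt_saw_len, hze, ENNReal.ofReal_mul (p := (cw n : ℝ)) (by positivity),
      ENNReal.ofReal_pow (by positivity), ENNReal.ofReal_natCast, pow_succ]
    ring
  rw [hW] at hcut
  set S : ℝ := Real.exp (5 + 561000 * 2 ^ i) with hS
  have hreal : (cw n : ℝ) * (1 / μ * Real.exp (-t)) ^ (n + 1) ≤ S ^ 2 := by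
    have h1 : ENNReal.ofReal ((cw n : ℝ) * (1 / μ * Real.exp (-t)) ^ (n + 1)) ≤
        ENNReal.ofReal (S ^ 2) := by
      refine le_trans hcut ?_
      rw [ENNReal.ofReal_pow (by positivity)]
      gcongr
    exact (ENNReal.ofReal_le_ofReal_iff (by positivity)).mp h1
  -- real arithmetic
  have h2i : (1 : ℝ) ≤ 2 ^ i := one_le_pow₀ (by norm_num)
  have h4i : (0 : ℝ) < 4 ^ i := by positivity
  have h8i : (8 : ℝ) ^ i = 2 ^ i * 4 ^ i := by
    rw [← mul_pow]; norm_num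
  have hn8 : (n : ℝ) ≤ 8 ^ i := by exact_mod_cast hn
  have htn : t * (n + 1) ≤ 2 * 2 ^ i := by
    rw [ht, div_mul_eq_mul_div, div_le_iff₀ h4i]
    have h7 : (1 : ℝ) ≤ 8 ^ i := one_le_pow₀ (by norm_num)
    have h8 : (n : ℝ) + 1 ≤ 2 * (2 ^ i * 4 ^ i) := by rw [← h8i]; linarith
    linarith
  have hpos : 0 < (1 / μ * Real.exp (-t)) ^ (n + 1) := by positivity
  have hinv : (1 / μ * Real.exp (-t)) ^ (n + 1) * (μ ^ (n + 1) * Real.exp (t * (n + 1))) = 1 := by
    rw [mul_pow, ← Real.exp_nat_mul]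
    have : (1 / μ) ^ (n + 1) * Real.exp (((n + 1 : ℕ) : ℝ) * -t) *
        (μ ^ (n + 1) * Real.exp (t * (n + 1)))
        = ((1 / μ) * μ) ^ (n + 1) * (Real.exp (((n + 1 : ℕ) : ℝ) * -t)
          * Real.exp (t * (n + 1))) := by
      rw [mul_pow]; ring
    rw [this, ← Real.exp_add, one_div_mul_cancel hμ.ne']
    push_cast
    have : ((n : ℝ) + 1) * -t + t * (n + 1) = 0 := by ring
    rw [this]; simp
  have hc : (cw n : ℝ) ≤ S ^ 2 * (μ ^ (n + 1) * Real.exp (t * (n + 1))) := by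
    calc (cw n : ℝ) = (cw n : ℝ) * ((1 / μ * Real.exp (-t)) ^ (n + 1) *
          (μ ^ (n + 1) * Real.exp (t * (n + 1)))) := by rw [hinv, mul_one]
      _ = ((cw n : ℝ) * (1 / μ * Real.exp (-t)) ^ (n + 1)) *
          (μ ^ (n + 1) * Real.exp (t * (n + 1))) := by ring
      _ ≤ _ := mul_le_mul_of_nonneg_right hreal (by positivity)
  refine le_trans hc ?_
  have hmu : μ ≤ Real.exp μ := by
    have h2 := Real.add_one_le_exp μ
    linarith
  calc S ^ 2 * (μ ^ (n + 1) * Real.exp (t * (n + 1)))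
      ≤ S ^ 2 * ((μ ^ n * Real.exp μ) * Real.exp (2 * 2 ^ i)) := by
        rw [pow_succ μ n]
        gcongr
    _ = μ ^ n * Real.exp (2 * (5 + 561000 * 2 ^ i) + μ + 2 * 2 ^ i) := by
        rw [hS, ← Real.exp_nat_mul]
        rw [Real.exp_add, Real.exp_add]
        push_cast
        ring
    _ ≤ μ ^ n * Real.exp ((1122012 + μ) * 2 ^ i) := by
        gcongr
        nlinarith

/-- **The number of self-avoiding walks of `Z²` is at most `μ ^ n exp (C n ^ (1/3))`.** -/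
theorem cw_le_third (μ : ℝ) (hμ : 0 < μ)
    (h : Tendsto (fun n : ℕ => (cw n : ℝ) ^ (1 / (n : ℝ))) atTop (𝓝 μ)) :
    ∃ C : ℝ, 0 ≤ C ∧ ∀ n : ℕ, (cw n : ℝ) ≤
      μ ^ n * Real.exp (C * (n : ℝ) ^ ((1 : ℝ) / 3)) := by
  classical
  refine ⟨2 * (1122012 + μ), by positivity, ?_⟩
  intro n
  rcases Nat.eq_zero_or_pos n with h0 | h0
  · have h2 : cw 0 = 1 := by
      have : {u : Wd | Saw u ∧ u.length = 0} = {[]} := by
        ext u
        constructor
        · rintro ⟨_, hu⟩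
          exact List.length_eq_zero_iff.mp hu
        · intro hu
          have : u = [] := hu
          rw [this]
          exact ⟨saw_nil, rfl⟩
      unfold cw
      rw [this, Set.ncard_singleton]
    subst h0
    rw [h2]
    simp
  have hex : ∃ i : ℕ, n ≤ 8 ^ i := ⟨n, (Nat.lt_pow_self (by norm_num)).le⟩
  set i := Nat.find hex with hi
  have hi1 : n ≤ 8 ^ i := Nat.find_spec hex
  refine le_trans (cw_le_scale_third μ hμ h i n hi1) ?_
  apply mul_le_mul_of_nonneg_left _ (by positivity)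
  apply Real.exp_le_exp.mpr
  have hn1 : (1 : ℝ) ≤ n := by exact_mod_cast h0
  have hp1 : (1 : ℝ) ≤ (n : ℝ) ^ ((1 : ℝ) / 3) := Real.one_le_rpow hn1 (by norm_num)
  have key : (2 : ℝ) ^ i ≤ 2 * (n : ℝ) ^ ((1 : ℝ) / 3) := by
    rcases Nat.eq_zero_or_pos i with h1 | h1
    · rw [h1]
      simp only [pow_zero]
      linarith
    · have hlt : 8 ^ (i - 1) < n := by
        have := Nat.find_min hex (m := i - 1) (by omega)
        push Not at this
        exact this
      have hlt' : (8 : ℝ) ^ (i - 1) ≤ n := by exact_mod_cast hlt.le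
      have h2 : (2 : ℝ) ^ (i - 1) ≤ (n : ℝ) ^ ((1 : ℝ) / 3) := by
        have h3 : (2 : ℝ) ^ (i - 1) = ((8 : ℝ) ^ (i - 1)) ^ ((1 : ℝ) / 3) := by
          rw [show (8 : ℝ) = 2 ^ 3 by norm_num, ← pow_mul, ← Real.rpow_natCast, ← Real.rpow_natCast,
            ← Real.rpow_mul (by positivity)]
          congr 1
          push_cast
          ring
        rw [h3]
        exact Real.rpow_le_rpow (by positivity) hlt' (by norm_num)
      have h4 : (2 : ℝ) ^ i = 2 * 2 ^ (i - 1) := by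
        rw [← pow_succ']
        congr 1
        omega
      rw [h4]
      linarith
  calc (1122012 + μ) * 2 ^ i
      ≤ (1122012 + μ) * (2 * (n : ℝ) ^ ((1 : ℝ) / 3)) := by gcongr
    _ = 2 * (1122012 + μ) * (n : ℝ) ^ ((1 : ℝ) / 3) := by ring

end Pool.Agent.BU
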