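import Pool.Agent.BU.Defs
import Pool.Agent.BT.Basic
import Pool.Agent.BT.QPlus

set_option autoImplicit false

open scoped ENNReal
open Filter Topology Pool.Agent.SawTree Pool.Agent.BB Pool.Agent.BT

namespace Pool.Agent.BU

section Abstract
variable {α : Type} (ht : α → ℕ) (dx : α → ℤ) (w : α → ℝ≥0∞)

/-- total weight of the coupled pairs of scales `s'`, `s`; `ρ` reflects the atoms laterally -/
theorem Q_bound (hht : ∀ a, 1 ≤ ht a) (hw : ∑' a, w a ≤ 1) (ρ : α → α) (hρ : ∀ a, ρ (ρ a) = a)
    (h1 : ∀ a, ht (ρ a) = ht a) (h2 : ∀ a, dx (ρ a) = - dx a) (h3 : ∀ a, w (ρ a) = w a)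
    {S : ℕ → ℕ} {K r : ℕ} (h : IsScale ht w S K r) (s' s : ℕ) (hs' : s' ≤ K) (hs : s ≤ K) :
    (wsum {p : List α × List α | p.1 ∈ Vset ht (S s') ∧ p.2 ∈ Vset ht (S s) ∧
      KK ht dx p.1 p.2} (w2 w)) ^ 2 * (VV ht w (zz S s') * VV ht w (zz S s))
      ≤ 4 * VV ht w r := by
  have eH : ∀ l : List α, hL ht (l.map ρ) = hL ht l := by
    intro l
    unfold hL
    rw [List.map_map]
    congr 1
    exact List.map_congr_left fun a _ => h1 a
  have eX : ∀ l : List α, xL dx (l.map ρ) = - xL dx l := by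
    intro l
    unfold xL
    induction l with
    | nil => simp
    | cons a l ih =>
      simp only [List.map_cons, List.sum_cons, h2] at ih ⊢
      rw [ih]; ring
  have eW : ∀ l : List α, wL w (l.map ρ) = wL w l := by
    intro l
    unfold wL
    rw [List.map_map]
    congr 1
    exact List.map_congr_left fun a _ => h3 a
  have eR : ∀ l : List α, (l.map ρ).map ρ = l := by
    intro l
    rw [List.map_map]
    conv_rhs => rw [← List.map_id l]
    exact List.map_congr_left fun a _ => hρ a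
  have inj : ∀ l l' : List α, l.map ρ = l'.map ρ → l = l' := by
    intro l l' h
    rw [← eR l, ← eR l', h]
  have spl : ∀ {l q r : List α}, l.map ρ = q ++ r → l = q.map ρ ++ r.map ρ := by
    intro l q r h
    rw [← eR l, h, List.map_append]
  have eV : ∀ {l : List α} {m : ℕ}, l ∈ Vset ht m → l.map ρ ∈ Vset ht m := by
    rintro l m ⟨g1, g2⟩
    refine ⟨by rw [eH]; exact g1, ?_⟩
    intro q r h hr
    have := g2 _ _ (spl h) (by simpa using hr)
    rwa [eH] at this
  set KS : Set (List α × List α) := {p | p.1 ∈ Vset ht (S s') ∧ p.2 ∈ Vset ht (S s) ∧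
      KK ht dx p.1 p.2} with hKS
  have zr : ∀ a ≤ K, zz S a ≤ r := fun a ha => max_le (h.le a ha) h.one_le_r
  have hle1 : wsum KS (w2 w) ≤ 1 := by
    calc wsum KS (w2 w) ≤ wsum (Vset ht (S s') ×ˢ Vset ht (S s))
          (fun p => wL w p.1 * wL w p.2) := by
          apply wsum_mono
          · rintro p ⟨g1, g2, _⟩
            exact ⟨g1, g2⟩
          · intro p _
            exact le_rfl
      _ = wsum (Vset ht (S s')) (wL w) * wsum (Vset ht (S s)) (wL w) := wsum_prod _ _ _ _
      _ ≤ 1 * 1 := mul_le_mul' (Vset_le_one ht w hht hw _) (Vset_le_one ht w hht hw _)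
      _ = 1 := one_mul 1
  have hV1 : VV ht w 1 = 1 := by
    unfold VV
    simp [Bw_zero ht w hht]
  rcases Nat.eq_zero_or_pos (S s') with h0 | h0
  · have hz : zz S s' = 1 := by unfold zz; omega
    rw [hz, hV1, one_mul]
    calc wsum KS (w2 w) ^ 2 * VV ht w (zz S s) ≤ 1 ^ 2 * VV ht w r := by
          gcongr
          exact VV_mono ht w (zr s hs)
      _ ≤ 4 * VV ht w r := by
          gcongr
          norm_num
  rcases Nat.eq_zero_or_pos (S s) with h0' | h0'
  · have hz : zz S s = 1 := by unfold zz; omega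
    rw [hz, hV1, mul_one]
    calc wsum KS (w2 w) ^ 2 * VV ht w (zz S s') ≤ 1 ^ 2 * VV ht w r := by
          gcongr
          exact VV_mono ht w (zr s' hs')
      _ ≤ 4 * VV ht w r := by
          gcongr
          norm_num
  -- both scales positive
  have sc1 : S s' = zz S s' := by unfold zz; omega
  have sc2 : S s = zz S s := by unfold zz; omega
  set m := min (zz S s') (zz S s) with hm
  have hm1 : m ≤ S s' := by rw [sc1]; exact min_le_left _ _
  have hm2 : m ≤ S s := by rw [sc2]; exact min_le_right _ _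
  set Q := wsum (Pset ht dx m (S s') (S s)) (w2 w) with hQ
  have hKQ : wsum KS (w2 w) ≤ 2 * Q := by
    have g1 : wsum KS (w2 w) ≤
        wsum {p : List α × List α | p.1 ∈ Vset ht (S s') ∧ p.2 ∈ Vset ht (S s) ∧
          (∀ q1 r1 p1 t1, p.1 = q1 ++ r1 → p.2 = p1 ++ t1 → hL ht q1 = hL ht p1 →
            0 < hL ht q1 → 0 < xL dx q1 + xL dx p1)} (w2 w) +
        wsum {p : List α × List α | p.1 ∈ Vset ht (S s') ∧ p.2 ∈ Vset ht (S s) ∧
          (∀ q1 r1 p1 t1, p.1 = q1 ++ r1 → p.2 = p1 ++ t1 → hL ht q1 = hL ht p1 →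
            0 < hL ht q1 → xL dx q1 + xL dx p1 < 0)} (w2 w) := by
      refine le_trans ?_ (wsum_union_le _ _ _)
      apply wsum_mono _ (fun _ _ => le_rfl)
      rintro p ⟨g1, g2, g3 | g3⟩
      · exact Or.inl ⟨g1, g2, g3⟩
      · exact Or.inr ⟨g1, g2, g3⟩
    refine g1.trans ?_
    rw [two_mul]
    refine add_le_add ?_ ?_
    · apply wsum_le_of_injOn (fun p : List α × List α => (p.1.map ρ, p.2))
      · rintro p ⟨g1, g2, g3⟩
        refine ⟨eV g1, g2, ?_⟩
        intro q1 r1 q2 r2 e1 e2 hh hpos _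
        have := g3 _ _ _ _ (spl e1) e2 (by rw [eH]; exact hh) (by rw [eH]; exact hpos)
        rw [eX] at this
        omega
      · rintro p _ p' _ he
        simp only [Prod.mk.injEq] at he
        exact Prod.ext (inj _ _ he.1) he.2
      · intro p _
        simp [w2, eW]
    · apply wsum_le_of_injOn (fun p : List α × List α => (p.1, p.2.map ρ))
      · rintro p ⟨g1, g2, g3⟩
        refine ⟨g1, eV g2, ?_⟩
        intro q1 r1 q2 r2 e1 e2 hh hpos _
        have := g3 _ _ _ _ e1 (spl e2) (by rw [eH]; exact hh) hpos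
        rw [eX] at this
        omega
      · rintro p _ p' _ he
        simp only [Prod.mk.injEq] at he
        exact Prod.ext he.1 (inj _ _ he.2)
      · intro p _
        simp [w2, eW]
  have hPs : VV ht w m * Q ^ 2 ≤ 1 := Pset_sq_le ht dx w hht hw hm1 hm2
  have hprod : VV ht w (zz S s') * VV ht w (zz S s) = VV ht w m * VV ht w (max (zz S s') (zz S s)) := by
    rcases le_total (zz S s') (zz S s) with hh | hh
    · rw [hm, min_eq_left hh, max_eq_right hh]
    · rw [hm, min_eq_right hh, max_eq_left hh, mul_comm]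
  rw [hprod]
  calc wsum KS (w2 w) ^ 2 * (VV ht w m * VV ht w (max (zz S s') (zz S s)))
      ≤ (2 * Q) ^ 2 * (VV ht w m * VV ht w (max (zz S s') (zz S s))) := by gcongr
    _ = 4 * (VV ht w m * Q ^ 2) * VV ht w (max (zz S s') (zz S s)) := by ring
    _ ≤ 4 * 1 * VV ht w r := by
        gcongr
        exact VV_mono ht w (max_le (zr s' hs') (zr s hs))
    _ = _ := by rw [mul_one]

end Abstract

end Pool.Agent.BU
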